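import Mathlib.LinearAlgebra.ExteriorAlgebra.Basic
import Mathlib.LinearAlgebra.CliffordAlgebra.Contraction
import Mathlib.Algebra.TrivSqZeroExt.Basic
import Mathlib.Algebra.Algebra.Operations
import Mathlib.Tactic.Module
import Mathlib.Tactic.NoncommRing
import Mathlib.Tactic.LinearCombination

/-! # Basic facts about the exterior algebra on countably many generators -/

set_option autoImplicit false

namespace Pool.Agent.LibGrassmann

open ExteriorAlgebra

variable {F : Type*} [Field F]

/-- The Grassmann algebra on the countable set of generators `e 0, e 1, ...`. -/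
abbrev GE (F : Type*) [Field F] := ExteriorAlgebra F (ℕ →₀ F)

/-- The generators. -/
noncomputable def e (i : ℕ) : GE F := ι F (Finsupp.single i (1 : F))

/-- The parity automorphism. -/
noncomputable def par : GE F →ₐ[F] GE F := ExteriorAlgebra.map (-LinearMap.id)

lemma par_ι (v : ℕ →₀ F) : par (ι F v) = -ι F v := by
  simp [par]

lemma par_e (i : ℕ) : par (e i : GE F) = -e i := par_ι _

lemma hom_ext' {A : Type*} [Semiring A] [Algebra F A] {f g : GE F →ₐ[F] A}
    (h : ∀ i, f (e i) = g (e i)) : f = g := by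
  apply ExteriorAlgebra.hom_ext
  apply Finsupp.lhom_ext'
  intro i
  ext
  simpa [e] using h i

lemma hom_congr {A : Type*} [Semiring A] [Algebra F A] {f g : GE F →ₐ[F] A}
    (h : ∀ i, f (e i) = g (e i)) (x : GE F) : f x = g x := by
  rw [hom_ext' h]

lemma par_par (x : GE F) : par (par x) = x := by
  have : (par.comp par : GE F →ₐ[F] GE F) = AlgHom.id F _ := by
    apply hom_ext'
    intro i
    simp [par_e]
  simpa using DFunLike.congr_fun this x

lemma ι_eq_sum (v : ℕ →₀ F) : ι F v = v.sum (fun i a => a • e i) := by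
  conv_lhs => rw [← Finsupp.sum_single v]
  rw [Finsupp.sum, map_sum, Finsupp.sum]
  apply Finset.sum_congr rfl
  intro i _
  rw [e, ← map_smul, Finsupp.smul_single, smul_eq_mul, mul_one]

/-- Induction principle. -/
theorem ind {P : GE F → Prop} (hs : ∀ r : F, P (algebraMap F _ r)) (he : ∀ i, P (e i))
    (hadd : ∀ x y, P x → P y → P (x + y)) (hmul : ∀ x y, P x → P y → P (x * y)) (x : GE F) :
    P x := by
  induction x using ExteriorAlgebra.induction with
  | algebraMap r => exact hs r
  | ι v =>
    rw [ι_eq_sum, Finsupp.sum]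
    classical
    apply Finset.sum_induction _ P hadd
    · simpa using hs 0
    · intro i _
      rw [Algebra.smul_def]
      exact hmul _ _ (hs _) (he i)
  | mul a b ha hb => exact hmul _ _ ha hb
  | add a b ha hb => exact hadd _ _ ha hb

lemma e_mul_e_swap (i j : ℕ) : (e i : GE F) * e j = -(e j * e i) := by
  have := ι_add_mul_swap (R := F) (Finsupp.single i (1:F)) (Finsupp.single j (1:F))
  rw [e, e]
  exact eq_neg_of_add_eq_zero_left this

lemma mul_e (x : GE F) (j : ℕ) : x * e j = e j * par x := by
  induction x using ind with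
  | hs r => rw [AlgHom.commutes]; exact (Algebra.commutes r _)
  | he i => rw [par_e, mul_neg, e_mul_e_swap]
  | hadd x y hx hy => rw [add_mul, hx, hy, map_add, mul_add]
  | hmul x y hx hy => rw [mul_assoc, hy, ← mul_assoc, hx, map_mul, mul_assoc]

variable [NeZero (2 : F)]

lemma two_smul_inj {x y : GE F} (h : (2 : F) • x = (2 : F) • y) : x = y :=
  smul_right_injective _ (NeZero.ne (2 : F)) h

/-- Super-commutativity. -/
lemma super (x y : GE F) : (2 : F) • (x * y) = (y + par y) * x + (y - par y) * par x := by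
  induction y using ind generalizing x with
  | hs r =>
    rw [AlgHom.commutes, ← Algebra.commutes r x, sub_self, zero_mul, add_zero, two_smul, add_mul]
  | he i =>
    rw [par_e, mul_e, two_smul]
    noncomm_ring
  | hadd a b ha hb =>
    rw [mul_add, smul_add, ha, hb, map_add]
    noncomm_ring
  | hmul a b ha hb =>
    apply two_smul_inj
    have h1 : (2 : F) • (2 : F) • (x * (a * b)) =
        (a + par a) * ((2 : F) • (x * b)) + (a - par a) * ((2 : F) • (par x * b)) := by
      rw [← mul_assoc, ← smul_mul_assoc, ha, add_mul, smul_add, mul_assoc, mul_assoc,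
        mul_smul_comm, mul_smul_comm]
    rw [h1, hb, hb, par_par, map_mul, two_smul]
    noncomm_ring

/-- Odd elements. -/
def IsOdd (x : GE F) : Prop := par x = -x

omit [NeZero (2 : F)] in
lemma isOdd_e (i : ℕ) : IsOdd (e i : GE F) := par_e i

lemma IsOdd.mul_eq {y : GE F} (hy : IsOdd y) (x : GE F) : x * y = y * par x := by
  apply two_smul_inj
  rw [super, hy, two_smul]
  noncomm_ring

lemma IsOdd.anticomm {x y : GE F} (hx : IsOdd x) (hy : IsOdd y) : x * y = -(y * x) := by
  rw [hy.mul_eq, hx, mul_neg]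

lemma IsOdd.sq {x : GE F} (hx : IsOdd x) : x * x = 0 := by
  apply two_smul_inj
  rw [smul_zero, two_smul]
  nth_rewrite 1 [hx.anticomm hx]
  simp

lemma even_central {y : GE F} (hy : par y = y) (x : GE F) : x * y = y * x := by
  apply two_smul_inj
  rw [super, hy, two_smul]
  noncomm_ring

omit [NeZero (2 : F)] in
lemma isOdd_zero : IsOdd (0 : GE F) := by simp [IsOdd]

omit [NeZero (2 : F)] in
lemma IsOdd.add {x y : GE F} (hx : IsOdd x) (hy : IsOdd y) : IsOdd (x + y) := by
  simp only [IsOdd, map_add] at *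
  rw [hx, hy]; abel

omit [NeZero (2 : F)] in
lemma IsOdd.smul {x : GE F} (hx : IsOdd x) (a : F) : IsOdd (a • x) := by
  simp only [IsOdd, map_smul] at *
  rw [hx, smul_neg]

/-- The submodule of odd elements. -/
def oddSub (F : Type*) [Field F] : Submodule F (GE F) where
  carrier := {x | IsOdd x}
  add_mem' := fun hx hy => IsOdd.add hx hy
  zero_mem' := isOdd_zero
  smul_mem' := fun a _ hx => IsOdd.smul hx a

omit [NeZero (2 : F)] in
lemma mem_oddSub {x : GE F} : x ∈ oddSub F ↔ IsOdd x := Iff.rfl

/-- The endomorphism with prescribed odd images of the generators. -/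
noncomputable def subst (c : ℕ → GE F) (hc : ∀ i, IsOdd (c i)) : GE F →ₐ[F] GE F :=
  lift F ⟨Finsupp.linearCombination F c, fun v => by
    apply IsOdd.sq
    rw [← mem_oddSub]
    rw [Finsupp.linearCombination_apply, Finsupp.sum]
    exact Submodule.sum_mem _ (fun i _ => Submodule.smul_mem _ _ (hc i))⟩

lemma subst_e (c : ℕ → GE F) (hc : ∀ i, IsOdd (c i)) (i : ℕ) : subst c hc (e i) = c i := by
  simp [subst, e]

omit [NeZero (2 : F)] in
lemma hom_par {f : GE F →ₐ[F] GE F} (h : ∀ i, IsOdd (f (e i))) (x : GE F) :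
    f (par x) = par (f x) := by
  have : f.comp par = (par.comp f : GE F →ₐ[F] GE F) := by
    apply hom_ext'
    intro i
    rw [AlgHom.comp_apply, AlgHom.comp_apply, par_e, map_neg]
    exact (h i).symm
  exact DFunLike.congr_fun this x

omit [NeZero (2 : F)] in
lemma IsOdd.map {f : GE F →ₐ[F] GE F} (h : ∀ i, IsOdd (f (e i))) {x : GE F} (hx : IsOdd x) :
    IsOdd (f x) := by
  rw [IsOdd, ← hom_par h, (hx : par _ = _), map_neg]


/-- The truncation `r N`, killing all generators `e i` with `i ≥ N`. -/
noncomputable def r (N : ℕ) : GE F →ₐ[F] GE F :=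
  subst (fun i => if i < N then e i else 0) (fun i => by
    split_ifs
    · exact isOdd_e i
    · exact isOdd_zero)

lemma r_e (N i : ℕ) : (r N (e i) : GE F) = if i < N then e i else 0 := subst_e _ _ i

lemma r_e_lt {N i : ℕ} (h : i < N) : (r N (e i) : GE F) = e i := by rw [r_e, if_pos h]

lemma r_e_ge {N i : ℕ} (h : N ≤ i) : (r N (e i) : GE F) = 0 := by rw [r_e, if_neg (by omega)]

lemma r_r {N M : ℕ} (h : N ≤ M) (x : GE F) : r M (r N x) = r N x := by
  have : ((r M).comp (r N) : GE F →ₐ[F] GE F) = r N := by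
    apply hom_ext'
    intro i
    rw [AlgHom.comp_apply, r_e]
    split_ifs with h1
    · rw [r_e_lt (by omega)]
    · rw [map_zero]
  exact DFunLike.congr_fun this x

lemma r_mono {N M : ℕ} (h : N ≤ M) {x : GE F} (hx : r N x = x) : r M x = x := by
  rw [← hx, r_r h]

lemma exists_r (x : GE F) : ∃ N, r N x = x := by
  induction x using ind with
  | hs a => exact ⟨0, by simp⟩
  | he i => exact ⟨i + 1, r_e_lt (by omega)⟩
  | hadd x y hx hy =>
    obtain ⟨N, hN⟩ := hx
    obtain ⟨M, hM⟩ := hy
    refine ⟨max N M, ?_⟩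
    rw [map_add, r_mono (le_max_left _ _) hN, r_mono (le_max_right _ _) hM]
  | hmul x y hx hy =>
    obtain ⟨N, hN⟩ := hx
    obtain ⟨M, hM⟩ := hy
    refine ⟨max N M, ?_⟩
    rw [map_mul, r_mono (le_max_left _ _) hN, r_mono (le_max_right _ _) hM]

lemma exists_r_ge (x : GE F) (n : ℕ) : ∃ N, n ≤ N ∧ r N x = x := by
  obtain ⟨N, hN⟩ := exists_r x
  exact ⟨max n N, le_max_left _ _, r_mono (le_max_right _ _) hN⟩

omit [NeZero (2 : F)] in
/-- If two homomorphisms agree on `e i`, `i < N`, they agree on the image of `r N`. -/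
lemma hom_congr_r [NeZero (2 : F)] {A : Type*} [Semiring A] [Algebra F A] {f g : GE F →ₐ[F] A} {N : ℕ}
    (h : ∀ i < N, f (e i) = g (e i)) {x : GE F} (hx : r N x = x) : f x = g x := by
  have : f.comp (r N) = g.comp (r N) := by
    apply hom_ext'
    intro i
    rw [AlgHom.comp_apply, AlgHom.comp_apply, r_e]
    split_ifs with h1
    · exact h i h1
    · rw [map_zero, map_zero]
  rw [← hx]
  exact DFunLike.congr_fun this x

/-- The augmentation and linear part, together. -/
noncomputable def T : GE F →ₐ[F] TrivSqZeroExt F (ℕ →₀ F) := toTrivSqZeroExt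

/-- The augmentation. -/
noncomputable def aug : GE F →ₐ[F] F := (TrivSqZeroExt.fstHom F F (ℕ →₀ F)).comp T

/-- The linear part. -/
noncomputable def lin : GE F →ₗ[F] (ℕ →₀ F) := (TrivSqZeroExt.sndHom F (ℕ →₀ F)).comp T.toLinearMap

omit [NeZero (2 : F)] in
lemma T_e (i : ℕ) : T (e i : GE F) = TrivSqZeroExt.inr (Finsupp.single i (1:F)) := by
  simp [T, e]

omit [NeZero (2 : F)] in
lemma aug_e (i : ℕ) : aug (e i : GE F) = 0 := by
  simp [aug, T_e]

omit [NeZero (2 : F)] in
lemma lin_e (i : ℕ) : lin (e i : GE F) = Finsupp.single i 1 := by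
  simp [lin, T_e]

omit [NeZero (2 : F)] in
lemma lin_mul (x y : GE F) : lin (x * y) = aug x • lin y + aug y • lin x := by
  simp [lin, aug]

omit [NeZero (2 : F)] in
lemma lin_algebraMap (a : F) : lin (algebraMap F (GE F) a) = 0 := by
  simp [lin, TrivSqZeroExt.algebraMap_eq_inl]

omit [NeZero (2 : F)] in
lemma lin_ι (v : ℕ →₀ F) : lin (ι F v) = v := by
  simp [lin, T]

omit [NeZero (2 : F)] in
lemma aug_ι (v : ℕ →₀ F) : aug (ι F v) = 0 := by
  simp [aug, T]

omit [NeZero (2 : F)] in
lemma aug_par (x : GE F) : aug (par x) = aug x := by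
  have : (aug.comp par : GE F →ₐ[F] F) = aug := by
    apply hom_ext'
    intro i
    simp [par_e, aug_e]
  exact DFunLike.congr_fun this x

lemma IsOdd.aug {x : GE F} (hx : IsOdd x) : aug x = 0 := by
  have h := aug_par x
  rw [(hx : par x = -x), map_neg] at h
  have h2 : (2 : F) * LibGrassmann.aug x = 0 := by linear_combination -h
  exact (mul_eq_zero.mp h2).resolve_left (NeZero.ne _)

/-- A homomorphism mapping generators to odd elements is compatible with the augmentation. -/
lemma aug_map {f : GE F →ₐ[F] GE F} (h : ∀ i, IsOdd (f (e i))) (x : GE F) :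
    aug (f x) = aug x := by
  have : (aug.comp f : GE F →ₐ[F] F) = aug := by
    apply hom_ext'
    intro i
    simp [(h i).aug, aug_e]
  exact DFunLike.congr_fun this x

end Pool.Agent.LibGrassmann
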