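import Mathlib.Algebra.Polynomial.RingDivision
import Mathlib.Algebra.Polynomial.FieldDivision
import Mathlib.LinearAlgebra.TensorProduct.Basic
import Mathlib.RingTheory.TensorProduct.Basic
import Mathlib.RingTheory.Nilpotent.Basic
import Mathlib.Tactic.LinearCombination
import Mathlib.Tactic.NoncommRing

/-! # Unipotent square roots of algebra automorphisms -/

set_option autoImplicit false

namespace Pool.Agent.LibGrassmann

open Polynomial

variable {F : Type*} [Field F]

lemma sqrt_poly_aux (h2 : (2 : F) ≠ 0) (n : ℕ) :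
    ∃ q : F[X], (X - C 1) ^ (n + 1) ∣ q ^ 2 - X ∧ (X - C 1) ∣ q - 1 := by
  induction n with
  | zero =>
    refine ⟨1, ⟨-1, ?_⟩, by simp⟩
    rw [C_1]; ring
  | succ n ih =>
    obtain ⟨q, ⟨a, ha⟩, ⟨b, hb⟩⟩ := ih
    have hc : (C ((2:F)⁻¹)) * 2 = (1 : F[X]) := by
      have : (2 : F[X]) = C 2 := (map_ofNat C 2).symm
      rw [this, ← C_mul, inv_mul_cancel₀ h2, map_one]
    refine ⟨q - C ((2:F)⁻¹) * (q ^ 2 - X), ?_, ?_⟩
    · have h1 : (q - C ((2:F)⁻¹) * (q ^ 2 - X)) ^ 2 - X =
          (q ^ 2 - X) * (-(q - 1) + (C ((2:F)⁻¹)) ^ 2 * (q ^ 2 - X)) := by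
        linear_combination (-q * (q ^ 2 - X)) * hc
      rw [h1, ha, hb]
      refine ⟨a * (-b + (C ((2:F)⁻¹)) ^ 2 * (X - C 1) ^ n * a), ?_⟩
      ring
    · have h1 : q - C ((2:F)⁻¹) * (q ^ 2 - X) - 1 = (q - 1) - C ((2:F)⁻¹) * (q ^ 2 - X) := by ring
      rw [h1, ha, hb]
      refine ⟨b - C ((2:F)⁻¹) * (X - C 1) ^ n * a, ?_⟩
      ring

lemma sqrt_poly (h2 : (2 : F) ≠ 0) (n : ℕ) :
    ∃ q : F[X], (X - C 1) ^ (n + 1) ∣ q ^ 2 - X ∧ (X - C 1) ∣ q - 1 ∧
      (X - C 1) ^ (n + 1) ∣ q.comp (X ^ 2) - X := by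
  obtain ⟨q, h1, h3⟩ := sqrt_poly_aux h2 n
  refine ⟨q, h1, h3, ?_⟩
  have hq1 : q.eval 1 = 1 := by
    obtain ⟨b, hb⟩ := h3
    have : (q - 1).eval 1 = 0 := by rw [hb]; simp
    rw [eval_sub, eval_one, sub_eq_zero] at this
    exact this
  have h4 : (X - C (1:F)) ^ (n + 1) ∣ (q.comp (X ^ 2) - X) * (q.comp (X ^ 2) + X) := by
    obtain ⟨a, ha⟩ := h1
    have h5 : (q.comp (X ^ 2) - X) * (q.comp (X ^ 2) + X) = (q ^ 2 - X).comp (X ^ 2) := by
      simp only [sub_comp, pow_comp, X_comp]; ring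
    rw [h5, ha]
    refine ⟨(X + C 1) ^ (n + 1) * a.comp (X ^ 2), ?_⟩
    rw [mul_comp, pow_comp, ← mul_assoc, ← mul_pow]
    congr 2
    rw [C_1, sub_comp, X_comp, one_comp]
    ring
  have hco : IsCoprime ((X - C (1:F)) ^ (n + 1)) (q.comp (X ^ 2) + X) := by
    apply IsCoprime.pow_left
    rw [(irreducible_X_sub_C (1:F)).coprime_iff_not_dvd, dvd_iff_isRoot, IsRoot.def]
    rw [eval_add, eval_comp, eval_X, eval_pow, eval_X, one_pow, hq1, one_add_one_eq_two]
    exact h2
  exact hco.dvd_of_dvd_mul_right h4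

lemma aeval_intertwine {M N : Type*} [AddCommGroup M] [Module F M] [AddCommGroup N] [Module F N]
    (μ : M →ₗ[F] N) (S : Module.End F M) (T : Module.End F N) (h : μ ∘ₗ S = T ∘ₗ μ) (q : F[X]) :
    μ ∘ₗ (aeval S q) = (aeval T q) ∘ₗ μ := by
  have hpow : ∀ n : ℕ, μ ∘ₗ (S ^ n) = (T ^ n) ∘ₗ μ := by
    intro n
    induction n with
    | zero => ext x; simp
    | succ n ih =>
      rw [pow_succ, pow_succ, Module.End.mul_eq_comp, Module.End.mul_eq_comp, ← LinearMap.comp_assoc,
        ih, LinearMap.comp_assoc, h, LinearMap.comp_assoc]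
  induction q using Polynomial.induction_on' with
  | add p q hp hq => rw [map_add, map_add, LinearMap.comp_add, LinearMap.add_comp, hp, hq]
  | monomial n a =>
    rw [aeval_monomial, aeval_monomial]
    ext x
    have := LinearMap.congr_fun (hpow n) x
    simp only [LinearMap.comp_apply] at this
    simp [Module.algebraMap_end_apply, this]

/-- Existence of good square roots of unipotent algebra endomorphisms. -/
theorem exists_sqrt {A : Type*} [Ring A] [Algebra F A] (h2 : (2 : F) ≠ 0) (τ : A →ₐ[F] A)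
    (hτ : IsNilpotent (τ.toLinearMap - 1)) :
    ∃ (q : F[X]) (σ : A →ₐ[F] A), σ.toLinearMap = aeval (τ.toLinearMap : Module.End F A) q ∧
      IsNilpotent (σ.toLinearMap - 1) ∧
      (∀ x, σ (σ x) = τ x) ∧ (∀ x, τ x = x → σ x = x) ∧
      (∀ J : Module.End F A, J * J = 1 → J * τ.toLinearMap * J * τ.toLinearMap = 1 →
        J * σ.toLinearMap * J * σ.toLinearMap = 1) := by
  obtain ⟨k, hk⟩ := hτ
  obtain ⟨q, ⟨a, ha⟩, ⟨b, hb⟩, ⟨c, hc⟩⟩ := sqrt_poly h2 (2 * k)
  set τL : Module.End F A := τ.toLinearMap with hτL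
  set σL : Module.End F A := aeval τL q with hσL
  have hpow : ∀ m, k ≤ m → (τL - 1) ^ m = 0 := fun m hm => pow_eq_zero_of_le hm hk
  have hX : aeval τL (X - C (1 : F)) = τL - 1 := by simp
  have hν : (σL - 1) ^ k = 0 := by
    have h1 : σL - 1 = aeval τL ((X - C 1) * b) := by rw [← hb, map_sub, map_one]
    rw [h1, ← map_pow, mul_pow, map_mul, map_pow, hX, hk, zero_mul]
  have hσ2 : σL ^ 2 = τL := by
    have h1 : σL ^ 2 - τL = aeval τL (q ^ 2 - X) := by simp [hσL]
    rw [ha, map_mul, map_pow, hX, hpow _ (by omega), zero_mul, sub_eq_zero] at h1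
    exact h1
  have hfix : ∀ x, τ x = x → σL x = x := by
    intro x hx
    have h1 : σL - 1 = aeval τL (b * (X - C 1)) := by rw [mul_comm, ← hb, map_sub, map_one]
    have h3 : (τL - 1) x = 0 := by
      rw [LinearMap.sub_apply, Module.End.one_apply, hτL, AlgHom.toLinearMap_apply, hx, sub_self]
    have h4 : (σL - 1) x = 0 := by
      rw [h1, map_mul, Module.End.mul_apply, hX, h3, map_zero]
    rw [LinearMap.sub_apply, Module.End.one_apply, sub_eq_zero] at h4
    exact h4
  have hkey : ∀ {B : Type _} [Ring B] [Algebra F B] (U : B), (U - 1) ^ (2 * k + 1) = 0 →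
      aeval (U ^ 2) q = U := by
    intro B _ _ U hU
    have h1 : aeval U (q.comp (X ^ 2) - X) = aeval (U ^ 2) q - U := by
      rw [map_sub, aeval_comp, map_pow, aeval_X]
    have h3 : aeval U (X - C (1 : F)) = U - 1 := by simp
    rw [hc, map_mul, map_pow, h3, hU, zero_mul] at h1
    exact (sub_eq_zero.mp h1.symm)
  -- multiplicativity
  set U : Module.End F (TensorProduct F A A) := TensorProduct.map σL σL with hU
  have hU2 : U ^ 2 = TensorProduct.map τL τL := by
    rw [hU, TensorProduct.map_pow, hσ2]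
  have hUn : (U - 1) ^ (2 * k + 1) = 0 := by
    have h1 : U - 1 = TensorProduct.map (σL - 1) σL + TensorProduct.map 1 (σL - 1) := by
      apply TensorProduct.ext'
      intro x y
      simp [hU, TensorProduct.sub_tmul, TensorProduct.tmul_sub]
    rw [h1]
    have hcm : Commute (TensorProduct.map (σL - 1) σL : Module.End F (TensorProduct F A A))
        (TensorProduct.map 1 (σL - 1)) := by
      rw [commute_iff_eq, ← TensorProduct.map_mul, ← TensorProduct.map_mul]
      rw [mul_one, one_mul, mul_sub, sub_mul, mul_one, one_mul]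
    have hx : (TensorProduct.map (σL - 1) σL : Module.End F (TensorProduct F A A)) ^ k = 0 := by
      rw [TensorProduct.map_pow, hν]
      exact TensorProduct.map_zero_left _
    have hy : (TensorProduct.map 1 (σL - 1) : Module.End F (TensorProduct F A A)) ^ k = 0 := by
      rw [TensorProduct.map_pow, hν]
      exact TensorProduct.map_zero_right _
    exact hcm.add_pow_eq_zero_of_add_le_succ_of_pow_eq_zero hx hy (by omega)
  have hq : aeval (TensorProduct.map τL τL : Module.End F (TensorProduct F A A)) q = U := by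
    rw [← hU2]
    exact hkey U hUn
  have hinter : (LinearMap.mul' F A) ∘ₗ (TensorProduct.map τL τL) = τL ∘ₗ (LinearMap.mul' F A) := by
    apply TensorProduct.ext'
    intro x y
    simp [hτL]
  have h5 := aeval_intertwine (LinearMap.mul' F A) _ _ hinter q
  rw [hq, ← hσL] at h5
  have hmul : ∀ x y, σL (x * y) = σL x * σL y := by
    intro x y
    have := LinearMap.congr_fun h5 (x ⊗ₜ y)
    simp only [LinearMap.comp_apply, hU, TensorProduct.map_tmul, LinearMap.mul'_apply] at this
    exact this.symm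
  let σ : A →ₐ[F] A := AlgHom.ofLinearMap σL (hfix 1 (map_one τ)) hmul
  have hσ : σ.toLinearMap = σL := by ext x; rfl
  refine ⟨q, σ, hσ, ⟨k, by rw [hσ]; exact hν⟩, ?_, ?_, ?_⟩
  · intro x
    have := LinearMap.congr_fun hσ2 x
    rw [pow_two, Module.End.mul_apply] at this
    exact this
  · intro x hx
    exact hfix x hx
  · intro J hJ hJτ
    rw [hσ]
    have hu : IsUnit σL := by
      have : IsNilpotent (σL - 1) := ⟨k, hν⟩
      have := this.isUnit_add_one
      simpa using this
    obtain ⟨u, hu⟩ := hu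
    have hJσ : J * σL * J = aeval (J * τL * J) q := by
      have h6 : J ∘ₗ τL = (J * τL * J) ∘ₗ J := by
        rw [← Module.End.mul_eq_comp, ← Module.End.mul_eq_comp, mul_assoc (J * τL), hJ, mul_one]
      have h7 := aeval_intertwine J _ _ h6 q
      rw [← Module.End.mul_eq_comp, ← Module.End.mul_eq_comp, ← hσL] at h7
      rw [h7, mul_assoc, hJ, mul_one]
    have hW : (J * τL * J) = (↑u⁻¹ : Module.End F A) ^ 2 := by
      have h8 : J * τL * J = (J * τL * J * τL) * ((↑u⁻¹ : Module.End F A) * ↑u⁻¹) := by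
        have h12 : τL * ((↑u⁻¹ : Module.End F A) * ↑u⁻¹) = 1 := by
          rw [← hσ2, ← hu, pow_two]
          simp [mul_assoc]
        rw [mul_assoc (J * τL * J), h12, mul_one]
      rw [h8, hJτ, one_mul, pow_two]
    have hWn : ((↑u⁻¹ : Module.End F A) - 1) ^ (2 * k + 1) = 0 := by
      have h9 : (↑u⁻¹ : Module.End F A) - 1 = ↑u⁻¹ * (1 - (u : Module.End F A)) := by
        rw [mul_sub, mul_one, Units.inv_mul]
      have h10 : Commute (↑u⁻¹ : Module.End F A) (1 - (u : Module.End F A)) := by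
        apply Commute.sub_right (Commute.one_right _)
        exact (Commute.refl (u : Module.End F A)).units_inv_left
      rw [h9, h10.mul_pow, hu]
      have h11 : (1 - σL) ^ k = 0 := by
        have h13 : 1 - σL = (-1 : F) • (σL - 1) := by
          ext x
          simp
        rw [h13, smul_pow, hν, smul_zero]
      rw [pow_eq_zero_of_le (by omega) h11, mul_zero]
    rw [hJσ, hW, hkey _ hWn, ← hu, Units.inv_mul]

end Pool.Agent.LibGrassmann
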