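import Pool.Agent.Lib_MP_7c306c_al.Nilp
import Pool.Agent.Lib_MP_7c306c_al.Sqrt

/-! # Capturing an eigenvector in a finite eigen-generated factor -/

set_option autoImplicit false

namespace Pool.Agent.LibGrassmann

open ExteriorAlgebra

variable {F : Type*} [Field F]

/-- The set of the first `N` generators. -/
def gens (F : Type*) [Field F] (N : ℕ) : Set (GE F) := {x | ∃ i < N, x = e i}

lemma gens_finite (N : ℕ) : (gens F N).Finite := by
  have : gens F N = (fun i => (e i : GE F)) '' (Set.Iio N) := by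
    ext x
    simp [gens, eq_comm]
  rw [this]
  exact (Set.finite_Iio N).image _

lemma gens_odd (N : ℕ) : ∀ x ∈ gens F N, IsOdd x := by
  rintro x ⟨i, _, rfl⟩
  exact isOdd_e i

lemma e_mem_gens {i N : ℕ} (h : i < N) : (e i : GE F) ∈ gens F N := ⟨i, h, rfl⟩

/-- The augmentation ideal. -/
noncomputable def mI (F : Type*) [Field F] : Submodule F (GE F) := LinearMap.ker (aug (F := F)).toLinearMap

lemma mem_mI {x : GE F} : x ∈ mI F ↔ aug x = 0 := Iff.rfl

lemma mI_ts : IsTS (mI F) := by
  constructor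
  · rw [Submodule.mul_le]
    intro x _ y hy
    rw [mem_mI] at *
    rw [map_mul, hy, mul_zero]
  · rw [Submodule.mul_le]
    intro x hx y _
    rw [mem_mI] at *
    rw [map_mul, hx, zero_mul]

lemma e_mem_mI (i : ℕ) : (e i : GE F) ∈ mI F := aug_e i

lemma ι_mem_mI (v : ℕ →₀ F) : ι F v ∈ mI F := aug_ι v

lemma decomp_mem (x : GE F) : x - algebraMap F _ (aug x) - ι F (lin x) ∈ mI F * mI F := by
  induction x using ind with
  | hs a =>
    rw [lin_algebraMap, AlgHom.commutes, map_zero, sub_zero]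
    simp
  | he i =>
    rw [aug_e, lin_e, map_zero, sub_zero]
    simp [e]
  | hadd x y hx hy =>
    have : x + y - algebraMap F _ (aug (x + y)) - ι F (lin (x + y)) =
        (x - algebraMap F _ (aug x) - ι F (lin x)) + (y - algebraMap F _ (aug y) - ι F (lin y)) := by
      rw [map_add, map_add, map_add, map_add]; abel
    rw [this]
    exact Submodule.add_mem _ hx hy
  | hmul x y hx hy =>
    set a := algebraMap F (GE F) (aug x) with ha
    set b := algebraMap F (GE F) (aug y) with hb
    set p := x - a - ι F (lin x) with hp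
    set q := y - b - ι F (lin y) with hq
    have hxx : x = a + ι F (lin x) + p := by rw [hp]; abel
    have hyy : y = b + ι F (lin y) + q := by rw [hq]; abel
    have hlin : ι F (lin (x * y)) = a * ι F (lin y) + ι F (lin x) * b := by
      rw [lin_mul, map_add, map_smul, map_smul, Algebra.smul_def, Algebra.smul_def, ha, hb,
        Algebra.commutes (aug y)]
    have haug : algebraMap F (GE F) (aug (x * y)) = a * b := by
      rw [map_mul, map_mul]
    have hts := (mI_ts (F := F)).mul (mI_ts (F := F))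
    have : x * y - algebraMap F _ (aug (x * y)) - ι F (lin (x * y)) =
        x * q + p * (b + ι F (lin y)) + ι F (lin x) * ι F (lin y) := by
      have e1 : x * y = (a + ι F (lin x) + p) * (b + ι F (lin y) + q) := by rw [← hxx, ← hyy]
      have e2 : x * q = (a + ι F (lin x) + p) * q := by rw [← hxx]
      rw [haug, hlin, e1, e2]
      noncomm_ring
    rw [this]
    refine Submodule.add_mem _ (Submodule.add_mem _ (hts.mul_mem_left _ hy)
      (hts.mul_mem_right hx _)) ?_
    exact Submodule.mul_mem_mul (ι_mem_mI _) (ι_mem_mI _)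

lemma mem_sq {x : GE F} (h1 : aug x = 0) (h2 : lin x = 0) : x ∈ mI F * mI F := by
  have := decomp_mem x
  rwa [h1, h2, map_zero, map_zero, sub_zero, sub_zero] at this

variable [NeZero (2 : F)]

lemma idl_gens_ts (N : ℕ) : IsTS (idl (gens F N)) := idl_ts (gens_odd N)

lemma r_sub_aug_mem (N : ℕ) (x : GE F) : r N x - algebraMap F _ (aug x) ∈ idl (gens F N) := by
  have := congr_mod (idl_gens_ts N) (f := r N) (g := (Algebra.ofId F (GE F)).comp aug) (fun i => by
    rw [AlgHom.comp_apply, aug_e, map_zero, sub_zero, r_e]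
    split_ifs with h
    · exact subset_idl (e_mem_gens h)
    · exact Submodule.zero_mem _) x
  exact this

/-- Unipotent automorphisms of finite type. -/
def Uni (N : ℕ) (f : GE F ≃ₐ[F] GE F) : Prop :=
  (∀ i, IsOdd (f (e i))) ∧ (∀ i, lin (f (e i)) = Finsupp.single i 1) ∧ (∀ i, N ≤ i → f (e i) = e i)

omit [NeZero (2 : F)] in
lemma exists_M_aux [NeZero (2 : F)] (c : ℕ → GE F) (N : ℕ) :
    ∃ M, N ≤ M ∧ ∀ i < N, r M (c i) = c i := by
  induction N with
  | zero => exact ⟨0, le_rfl, by simp⟩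
  | succ N ih =>
    obtain ⟨M, hM, h⟩ := ih
    obtain ⟨M', hM', h'⟩ := exists_r_ge (c N) (M + 1)
    refine ⟨M', by omega, ?_⟩
    intro i hi
    rcases Nat.lt_succ_iff_lt_or_eq.mp hi with h1 | h1
    · exact r_mono (by omega) (h i h1)
    · rw [h1]; exact h'

lemma delta_of_gens {N M : ℕ} {f : GE F →ₐ[F] GE F} (h1 : ∀ i, IsOdd (f (e i)))
    (h2 : ∀ i, lin (f (e i)) = Finsupp.single i 1) (h3 : ∀ i, N ≤ i → f (e i) = e i)
    (hNM : N ≤ M) (hM : ∀ i < N, r M (f (e i)) = f (e i))
    {K : Submodule F (GE F)} (hK : IsTS K) (hKM : ∀ i < M, e i ∈ K) (x : GE F) :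
    f x - x ∈ K ^ 2 := by
  have hK2 : IsTS (K ^ 2) := hK.pow 1
  refine congr_mod hK2 (f := f) (g := AlgHom.id F _) (fun i => ?_) x
  rw [AlgHom.id_apply]
  rcases lt_or_ge i N with hi | hi
  · have hm : f (e i) - e i ∈ mI F * mI F := by
      apply mem_sq
      · rw [map_sub, (h1 i).aug, aug_e, sub_zero]
      · rw [map_sub, h2, lin_e, sub_self]
    have hr : r M (f (e i) - e i) = f (e i) - e i := by
      rw [map_sub, hM i hi, r_e_lt (by omega)]
    have hle : idl (gens F M) ≤ K := by
      rw [idl]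
      refine le_trans (mul_le_mul' le_rfl (Submodule.span_le.mpr ?_)) hK.1
      rintro _ ⟨j, hj, rfl⟩
      exact hKM j hj
    have himg : ∀ y ∈ mI F, r M y ∈ K := by
      intro y hy
      have := r_sub_aug_mem M y
      rw [mem_mI.mp hy, map_zero, sub_zero] at this
      exact hle this
    rw [← hr, pow_two]
    generalize f (e i) - e i = z at hm
    induction hm using Submodule.mul_induction_on' with
    | mem_mul_mem a ha b hb => rw [map_mul]; exact Submodule.mul_mem_mul (himg a ha) (himg b hb)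
    | add a ha b hb h1 h2 => rw [map_add]; exact Submodule.add_mem _ h1 h2
  · rw [h3 i hi, sub_self]
    exact Submodule.zero_mem _

/-- Construct a unipotent automorphism of finite type. -/
lemma exists_uni {N : ℕ} (c : ℕ → GE F) (h1 : ∀ i, IsOdd (c i))
    (h2 : ∀ i, lin (c i) = Finsupp.single i 1) (h3 : ∀ i, N ≤ i → c i = e i) :
    ∃ f : GE F ≃ₐ[F] GE F, Uni N f ∧ ∀ i, f (e i) = c i := by
  obtain ⟨M, hNM, hM⟩ := exists_M_aux c N
  have hd := delta_of_gens (f := subst c h1) (N := N) (M := M)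
    (fun i => by rw [subst_e]; exact h1 i) (fun i => by rw [subst_e]; exact h2 i)
    (fun i hi => by rw [subst_e]; exact h3 i hi) hNM (fun i hi => by rw [subst_e]; exact hM i hi)
    (idl_gens_ts M) (fun i hi => subset_idl (e_mem_gens hi))
  have hn := nilp_of_delta (idl_gens_ts M) (idl_nilp (gens_finite M) (gens_odd M)) hd
  refine ⟨AlgEquiv.ofBijective (subst c h1) (bijective_of_nilp hn), ⟨?_, ?_, ?_⟩, ?_⟩
  · intro i
    rw [AlgEquiv.coe_ofBijective, subst_e]; exact h1 i
  · intro i
    rw [AlgEquiv.coe_ofBijective, subst_e]; exact h2 i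
  · intro i hi
    rw [AlgEquiv.coe_ofBijective, subst_e]; exact h3 i hi
  · intro i
    rw [AlgEquiv.coe_ofBijective, subst_e]

/-- The linear part of a homomorphism. -/
lemma lin_map {f : GE F →ₐ[F] GE F} (h1 : ∀ i, IsOdd (f (e i))) (ε : ℕ → F)
    (h2 : ∀ i, lin (f (e i)) = ε i • Finsupp.single i 1) (x : GE F) (j : ℕ) :
    lin (f x) j = ε j * lin x j := by
  induction x using ind with
  | hs a => rw [AlgHom.commutes, lin_algebraMap]; simp
  | he i =>
    rw [h2, lin_e, Finsupp.smul_apply, smul_eq_mul]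
    by_cases hij : i = j
    · rw [hij]
    · rw [Finsupp.single_eq_of_ne (fun h => hij h.symm)]; simp
  | hadd x y hx hy => rw [map_add, map_add, map_add, Finsupp.add_apply, hx, hy, Finsupp.add_apply]; ring
  | hmul x y hx hy =>
    rw [map_mul, lin_mul, lin_mul, aug_map h1, aug_map h1]
    simp only [Finsupp.add_apply, Finsupp.smul_apply, smul_eq_mul, hx, hy]
    ring

lemma Uni.lin_eq {N : ℕ} {f : GE F ≃ₐ[F] GE F} (hf : Uni N f) (x : GE F) : lin (f x) = lin x := by
  ext j
  have := lin_map (f := (f : GE F →ₐ[F] GE F)) (fun i => hf.1 i) (fun _ => 1)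
    (fun i => by simpa using hf.2.1 i) x j
  simpa using this

lemma Uni.symm {N : ℕ} {f : GE F ≃ₐ[F] GE F} (hf : Uni N f) : Uni N f.symm := by
  refine ⟨fun i => ?_, fun i => ?_, fun i hi => ?_⟩
  · have h : ∀ x, f (par x) = par (f x) := hom_par (f := (f : GE F →ₐ[F] GE F)) (fun i => hf.1 i)
    rw [IsOdd]
    apply f.injective
    rw [h, map_neg, AlgEquiv.apply_symm_apply, par_e]
  · rw [← hf.lin_eq, AlgEquiv.apply_symm_apply, lin_e]
  · rw [AlgEquiv.symm_apply_eq]
    exact (hf.2.2 i hi).symm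

omit [NeZero (2 : F)] in
lemma equiv_par {f : GE F ≃ₐ[F] GE F} (hf : ∀ i, IsOdd (f (e i))) (x : GE F) :
    f (par x) = par (f x) := hom_par (f := (f : GE F →ₐ[F] GE F)) (fun i => hf i) x

omit [NeZero (2 : F)] in
lemma IsOdd.mapE {f : GE F ≃ₐ[F] GE F} (hf : ∀ i, IsOdd (f (e i))) {x : GE F} (hx : IsOdd x) :
    IsOdd (f x) := IsOdd.map (f := (f : GE F →ₐ[F] GE F)) (fun i => hf i) hx

lemma Uni.trans {N : ℕ} {f g : GE F ≃ₐ[F] GE F} (hf : Uni N f) (hg : Uni N g) :
    Uni N (f.trans g) := by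
  refine ⟨fun i => ?_, fun i => ?_, fun i hi => ?_⟩
  · rw [AlgEquiv.trans_apply]
    exact IsOdd.mapE hg.1 (hf.1 i)
  · rw [AlgEquiv.trans_apply, hg.lin_eq, hf.2.1]
  · rw [AlgEquiv.trans_apply, hf.2.2 i hi, hg.2.2 i hi]

end Pool.Agent.LibGrassmann
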