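import Pool.Agent.Lib_MP_7c306c_al.Reduce

/-! # Reduction of general involutions to parity-preserving ones -/

set_option autoImplicit false

namespace Pool.Agent.LibGrassmann

open ExteriorAlgebra Module

variable {F : Type*} [Field F]

/-- Even part. -/
noncomputable def ev : GE F →ₗ[F] GE F := (2 : F)⁻¹ • (LinearMap.id + par.toLinearMap)

/-- Odd part. -/
noncomputable def od : GE F →ₗ[F] GE F := (2 : F)⁻¹ • (LinearMap.id - par.toLinearMap)

lemma ev_apply (x : GE F) : ev x = (2 : F)⁻¹ • (x + par x) := rfl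

lemma od_apply (x : GE F) : od x = (2 : F)⁻¹ • (x - par x) := rfl

lemma par_ev (x : GE F) : par (ev x) = ev x := by
  rw [ev_apply, map_smul, map_add, par_par, add_comm]

lemma od_odd (x : GE F) : IsOdd (od x) := by
  rw [IsOdd, od_apply, map_smul, map_sub, par_par, ← smul_neg, neg_sub]

variable [NeZero (2 : F)]

omit [NeZero (2 : F)] in
lemma half [NeZero (2 : F)] (z : GE F) : (2 : F)⁻¹ • (z + z) = z := by
  rw [← two_smul F, smul_smul, inv_mul_cancel₀ (NeZero.ne (2 : F)), one_smul]

lemma ev_add_od (x : GE F) : ev x + od x = x := by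
  rw [ev_apply, od_apply, ← smul_add, add_add_sub_cancel, half]

lemma ev_even {x : GE F} (h : par x = x) : ev x = x := by rw [ev_apply, h, half]

omit [NeZero (2 : F)] in
lemma od_even {x : GE F} (h : par x = x) : od x = 0 := by rw [od_apply, h, sub_self, smul_zero]

omit [NeZero (2 : F)] in
lemma ev_odd {x : GE F} (h : IsOdd x) : ev x = 0 := by
  rw [ev_apply, (h : par x = -x), add_neg_cancel, smul_zero]

lemma od_of_odd {x : GE F} (h : IsOdd x) : od x = x := by
  rw [od_apply, (h : par x = -x), sub_neg_eq_add, half]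

omit [NeZero (2 : F)] in
lemma ev_mul_even {x : GE F} (h : par x = x) (y : GE F) : ev (x * y) = x * ev y := by
  rw [ev_apply, ev_apply, map_mul, h, ← mul_add, mul_smul_comm]

omit [NeZero (2 : F)] in
lemma od_mul_even {x : GE F} (h : par x = x) (y : GE F) : od (x * y) = x * od y := by
  rw [od_apply, od_apply, map_mul, h, ← mul_sub, mul_smul_comm]

omit [NeZero (2 : F)] in
lemma even_mul {x y : GE F} (hx : par x = x) (hy : par y = y) : par (x * y) = x * y := by
  rw [map_mul, hx, hy]

omit [NeZero (2 : F)] in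
lemma odd_mul_odd {x y : GE F} (hx : IsOdd x) (hy : IsOdd y) : par (x * y) = x * y := by
  rw [map_mul, (hx : par x = -x), (hy : par y = -y), neg_mul_neg]

omit [NeZero (2 : F)] in
lemma even_mul_odd {x y : GE F} (hx : par x = x) (hy : IsOdd y) : IsOdd (x * y) := by
  rw [IsOdd, map_mul, hx, (hy : par y = -y), mul_neg]

omit [NeZero (2 : F)] in
lemma odd_mul_even {x y : GE F} (hx : IsOdd x) (hy : par y = y) : IsOdd (x * y) := by
  rw [IsOdd, map_mul, hy, (hx : par x = -x), neg_mul]

/-- If the sum of an even and an odd element vanishes, both vanish. -/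
lemma even_odd_zero {a b : GE F} (ha : par a = a) (hb : IsOdd b) (h : a + b = 0) :
    a = 0 ∧ b = 0 := by
  have h1 : ev (a + b) = a := by rw [map_add, ev_even ha, ev_odd hb, add_zero]
  have h3 : a = 0 := by rw [← h1, h, map_zero]
  refine ⟨h3, ?_⟩
  rw [h3, zero_add] at h
  exact h

lemma r_ι (N : ℕ) (v : ℕ →₀ F) : ∃ w : ℕ →₀ F, w N = 0 ∧ r N (ι F v) = ι F w := by
  refine ⟨v.sum (fun i a => if i < N then Finsupp.single i a else 0), ?_, ?_⟩
  · rw [Finsupp.sum_apply, Finsupp.sum]
    apply Finset.sum_eq_zero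
    intro i _
    split_ifs with h
    · rw [Finsupp.single_eq_of_ne (by omega)]
    · rfl
  · rw [ι_eq_sum, Finsupp.sum, Finsupp.sum, map_sum, map_sum]
    apply Finset.sum_congr rfl
    intro i _
    rw [map_smul, r_e]
    split_ifs with h
    · rw [e, ← map_smul, Finsupp.smul_single, smul_eq_mul, mul_one]
    · rw [smul_zero, map_zero]

lemma contract_r (N : ℕ) (x : GE F) :
    CliffordAlgebra.contractLeft (Finsupp.lapply N : (ℕ →₀ F) →ₗ[F] F) (r N x) = 0 := by
  induction x using CliffordAlgebra.left_induction with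
  | algebraMap a => rw [AlgHom.commutes, CliffordAlgebra.contractLeft_algebraMap]
  | add x y hx hy => rw [map_add, map_add, hx, hy, add_zero]
  | ι_mul x m hx =>
    obtain ⟨w, hw, hr⟩ := r_ι N m
    have hr' : r N (CliffordAlgebra.ι (0 : QuadraticForm F (ℕ →₀ F)) m) =
      CliffordAlgebra.ι (0 : QuadraticForm F (ℕ →₀ F)) w := hr
    rw [map_mul, hr', CliffordAlgebra.contractLeft_ι_mul, hx, mul_zero, sub_zero]
    show w N • _ = (0 : GE F)
    rw [hw, zero_smul]

/-- Multiplication by `e N` is injective on the subalgebra generated by `e i`, `i < N`. -/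
lemma e_mul_eq_zero {N : ℕ} {x : GE F} (hx : r N x = x) (h : e N * x = 0) : x = 0 := by
  have h1 : CliffordAlgebra.contractLeft (Finsupp.lapply N : (ℕ →₀ F) →ₗ[F] F) (e N * x) = x := by
    have h3 := CliffordAlgebra.contractLeft_ι_mul (Q := (0 : QuadraticForm F (ℕ →₀ F)))
      (d := (Finsupp.lapply N : (ℕ →₀ F) →ₗ[F] F)) (Finsupp.single N (1 : F)) x
    have h4 := contract_r N x
    rw [hx] at h4
    rw [h4, mul_zero, sub_zero] at h3
    have h5 : (Finsupp.lapply N : (ℕ →₀ F) →ₗ[F] F) (Finsupp.single N (1 : F)) = 1 := by simp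
    rw [h5, one_smul] at h3
    exact h3
  rw [← h1, h, map_zero]

/-- Central elements are even. -/
lemma even_of_central {x : GE F} (h : ∀ y, x * y = y * x) : par x = x := by
  have hod : ∀ y, od x * y = y * od x := by
    intro y
    have h1 : od x = x - ev x := by
      have := ev_add_od x
      rw [eq_sub_iff_add_eq, add_comm]; exact this
    rw [h1, sub_mul, mul_sub, h, even_central (par_ev x)]
  obtain ⟨N, hN⟩ := exists_r (od x)
  have h3 : e N * od x = 0 := by
    apply two_smul_inj
    rw [smul_zero, two_smul]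
    nth_rewrite 1 [← hod (e N)]
    rw [(od_odd x).anticomm (isOdd_e N)]
    exact neg_add_cancel _
  have h4 := e_mul_eq_zero hN h3
  have h5 := ev_add_od x
  rw [h4, add_zero] at h5
  rw [← h5]
  exact par_ev x

section Involution

variable (φ : GE F →ₐ[F] GE F) (hφ : ∀ x, φ (φ x) = x)

include hφ

lemma map_even {x : GE F} (hx : par x = x) : par (φ x) = φ x := by
  apply even_of_central
  intro y
  have : y = φ (φ y) := (hφ y).symm
  rw [this, ← map_mul, ← map_mul, even_central hx]

/-- The basic relations. -/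
lemma rel {a b : GE F} (ha : IsOdd a) (hb : IsOdd b) :
    ev (φ a) * ev (φ b) = 0 ∧ ev (φ a) * od (φ b) + od (φ a) * ev (φ b) = 0 := by
  have h1 : φ a * φ b + φ b * φ a = 0 := by
    rw [← map_mul, ← map_mul, ← map_add, ha.anticomm hb, neg_add_cancel, map_zero]
  have h2 : φ a = ev (φ a) + od (φ a) := (ev_add_od _).symm
  have h3 : φ b = ev (φ b) + od (φ b) := (ev_add_od _).symm
  have h4 : (ev (φ a) * ev (φ b) + ev (φ a) * ev (φ b)) +
      ((ev (φ a) * od (φ b) + od (φ a) * ev (φ b)) + (ev (φ a) * od (φ b) + od (φ a) * ev (φ b))) =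
      0 := by
    have c1 : ev (φ b) * ev (φ a) = ev (φ a) * ev (φ b) := even_central (par_ev _) _
    have c2 : ev (φ b) * od (φ a) = od (φ a) * ev (φ b) := (even_central (par_ev _) _).symm
    have c3 : od (φ b) * ev (φ a) = ev (φ a) * od (φ b) := even_central (par_ev _) _
    have c4 : od (φ b) * od (φ a) = -(od (φ a) * od (φ b)) := (od_odd _).anticomm (od_odd _)
    rw [h2, h3] at h1
    simp only [mul_add, add_mul] at h1
    rw [c1, c2, c3, c4] at h1
    rw [← h1]
    abel
  have p1 : par (ev (φ a) * ev (φ b) + ev (φ a) * ev (φ b)) =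
      ev (φ a) * ev (φ b) + ev (φ a) * ev (φ b) := by
    rw [map_add, even_mul (par_ev _) (par_ev _)]
  have p2 : IsOdd ((ev (φ a) * od (φ b) + od (φ a) * ev (φ b)) +
      (ev (φ a) * od (φ b) + od (φ a) * ev (φ b))) := by
    have : IsOdd (ev (φ a) * od (φ b) + od (φ a) * ev (φ b)) :=
      (even_mul_odd (par_ev _) (od_odd _)).add (odd_mul_even (od_odd _) (par_ev _))
    exact this.add this
  obtain ⟨h5, h6⟩ := even_odd_zero p1 p2 h4
  constructor
  · have := congrArg (fun z => (2 : F)⁻¹ • z) h5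
    simpa only [half, smul_zero] using this
  · have := congrArg (fun z => (2 : F)⁻¹ • z) h6
    simpa only [half, smul_zero] using this

/-- The correction term. -/
noncomputable def zet (φ : GE F →ₐ[F] GE F) : GE F →ₗ[F] GE F :=
  (-(2 : F)⁻¹) • (φ.toLinearMap ∘ₗ ev ∘ₗ φ.toLinearMap ∘ₗ od)

omit hφ [NeZero (2 : F)] in
lemma zet_apply (x : GE F) : zet φ x = (-(2 : F)⁻¹) • φ (ev (φ (od x))) := rfl

lemma zet_even (x : GE F) : par (zet φ x) = zet φ x := by
  rw [zet_apply, map_smul, map_even φ hφ (par_ev _)]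

omit hφ in
lemma zet_of_even {x : GE F} (hx : par x = x) : zet φ x = 0 := by
  rw [zet_apply, od_even hx, map_zero, map_zero, map_zero, smul_zero]

omit hφ in
lemma zet_of_odd {x : GE F} (hx : IsOdd x) : zet φ x = (-(2 : F)⁻¹) • φ (ev (φ x)) := by
  rw [zet_apply, od_of_odd hx]

lemma zet_even_mul {x y : GE F} (hx : par x = x) : zet φ (x * y) = x * zet φ y := by
  rw [zet_apply, zet_apply, od_mul_even hx, map_mul, ev_mul_even (map_even φ hφ hx), map_mul, hφ,
    mul_smul_comm]

lemma zet_mul_zet (x y : GE F) : zet φ x * zet φ y = 0 := by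
  rw [zet_apply, zet_apply, smul_mul_smul_comm, ← map_mul,
    (rel φ hφ (od_odd x) (od_odd y)).1, map_zero, smul_zero]

lemma zet_rel {x y : GE F} (hx : IsOdd x) (hy : IsOdd y) : x * zet φ y + zet φ x * y = 0 := by
  obtain ⟨h1, h2⟩ := rel φ hφ hx hy
  have h3 : φ x * ev (φ y) + ev (φ x) * φ y = 0 := by
    have e1 : φ x = ev (φ x) + od (φ x) := (ev_add_od _).symm
    have e2 : φ y = ev (φ y) + od (φ y) := (ev_add_od _).symm
    have : φ x * ev (φ y) + ev (φ x) * φ y =
        (ev (φ x) * ev (φ y) + ev (φ x) * ev (φ y)) +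
          (ev (φ x) * od (φ y) + od (φ x) * ev (φ y)) := by
      calc φ x * ev (φ y) + ev (φ x) * φ y =
          (ev (φ x) + od (φ x)) * ev (φ y) + ev (φ x) * (ev (φ y) + od (φ y)) := by
            rw [ev_add_od, ev_add_od]
        _ = _ := by noncomm_ring
    rw [this, h1, h2]
    simp
  have h4 := congrArg φ h3
  rw [map_add, map_mul, map_mul, hφ, hφ, map_zero] at h4
  rw [zet_of_odd φ hx, zet_of_odd φ hy, mul_smul_comm, smul_mul_assoc, ← smul_add, h4, smul_zero]

/-- The conjugating automorphism. -/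
theorem exists_psi : ∃ ψ : GE F ≃ₐ[F] GE F, ∀ x, ψ x = x + zet φ x := by
  have hmul : ∀ x y : GE F, (x * y) + zet φ (x * y) = (x + zet φ x) * (y + zet φ y) := by
    intro x y
    have hx : x = ev x + od x := (ev_add_od x).symm
    have hy : y = ev y + od y := (ev_add_od y).symm
    set a := ev x with ha
    set b := od x with hb
    set c := ev y with hc
    set d := od y with hd
    have pa : par a = a := par_ev x
    have pb : IsOdd b := od_odd x
    have pc : par c = c := par_ev y
    have pd : IsOdd d := od_odd y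
    have z1 : zet φ a = 0 := zet_of_even φ pa
    have z2 : zet φ c = 0 := zet_of_even φ pc
    have z3 : zet φ (a * c) = 0 := zet_of_even φ (even_mul pa pc)
    have z4 : zet φ (b * d) = 0 := zet_of_even φ (odd_mul_odd pb pd)
    have z5 : zet φ (a * d) = a * zet φ d := zet_even_mul φ hφ pa
    have z6 : zet φ (b * c) = zet φ b * c := by
      rw [even_central pc, zet_even_mul φ hφ pc, ← even_central pc]
    have z7 : zet φ b * zet φ d = 0 := zet_mul_zet φ hφ b d
    have z8 : b * zet φ d + zet φ b * d = 0 := zet_rel φ hφ pb pd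
    rw [hx, hy]
    simp only [map_add, mul_add, add_mul]
    rw [z1, z2, z3, z4, z5, z6, z7]
    simp only [mul_zero, zero_mul, add_zero, zero_add]
    have : a * c + b * c + (a * d + b * d) + (zet φ b * c + a * zet φ d) =
        a * c + b * c + (a * d + b * d) + (zet φ b * c + a * zet φ d) +
          (b * zet φ d + zet φ b * d) := by rw [z8, add_zero]
    rw [this]
    abel
  have h1 : (1 : GE F) + zet φ 1 = 1 := by
    rw [zet_of_even φ (map_one _), add_zero]
  let ψ₀ : GE F →ₐ[F] GE F := AlgHom.ofLinearMap (LinearMap.id + zet φ) h1 hmul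
  have hψ₀ : ∀ x, ψ₀ x = x + zet φ x := fun x => rfl
  have hz : ∀ x, zet φ (zet φ x) = 0 := fun x => zet_of_even φ (zet_even φ hφ x)
  have hbij : Function.Bijective ψ₀ := by
    constructor
    · rw [injective_iff_map_eq_zero]
      intro x hx
      rw [hψ₀] at hx
      have h2 := congrArg (zet φ) hx
      rw [map_add, hz, add_zero, map_zero] at h2
      rw [h2, add_zero] at hx
      exact hx
    · intro x
      refine ⟨x - zet φ x, ?_⟩
      rw [hψ₀, map_sub, hz, sub_zero, sub_add_cancel]
  exact ⟨AlgEquiv.ofBijective ψ₀ hbij, hψ₀⟩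

/-- Every involution of the Grassmann algebra is linearisable. -/
theorem linearize : ∃ (G : GE F ≃ₐ[F] GE F) (ε : ℕ → F), (∀ i, ε i * ε i = 1) ∧
    ∀ i, φ (G (e i)) = ε i • G (e i) := by
  obtain ⟨ψ, hψ⟩ := exists_psi φ hφ
  set φ' : GE F →ₐ[F] GE F :=
    ((ψ.symm : GE F →ₐ[F] GE F).comp φ).comp (ψ : GE F →ₐ[F] GE F) with hφ'
  have hφ'x : ∀ x, φ' x = ψ.symm (φ (ψ x)) := fun x => rfl
  have hodd : ∀ i, IsOdd (φ' (e i)) := by
    intro i
    set x : GE F := e i with hx
    have hxo : IsOdd x := isOdd_e i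
    have h1 : φ' x = od (φ x) := by
      rw [hφ'x, AlgEquiv.symm_apply_eq, hψ, hψ, map_add, zet_of_odd φ hxo, map_smul, hφ,
        zet_of_odd φ (od_odd _)]
      have h3 : od (φ x) = φ x - ev (φ x) := by
        rw [eq_sub_iff_add_eq, add_comm]; exact ev_add_od _
      have h4 : ev (φ (od (φ x))) = -φ (ev (φ x)) := by
        rw [h3, map_sub, hφ, map_sub, ev_odd hxo, zero_sub, ev_even (map_even φ hφ (par_ev _))]
      rw [h4, map_neg, hφ, h3, neg_smul, neg_smul, smul_neg, neg_neg]
      have h5 := half (ev (φ x))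
      rw [smul_add] at h5
      nth_rewrite 2 [← h5]
      abel
    rw [h1]
    exact od_odd _
  obtain ⟨G, ε, hε, hG⟩ := linearize_par φ'
    (fun x => by rw [hφ'x, hφ'x, AlgEquiv.apply_symm_apply, hφ, AlgEquiv.symm_apply_apply]) hodd
  refine ⟨G.trans ψ, ε, hε, fun i => ?_⟩
  have h5 := congrArg ψ (hG i)
  rw [hφ'x, AlgEquiv.apply_symm_apply, map_smul] at h5
  rw [AlgEquiv.trans_apply]
  exact h5

end Involution

end Pool.Agent.LibGrassmann
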