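import Pool.Agent.Lib_MP_7c306c_al.Core

/-! # The equivariant retraction and the key lemma -/

set_option autoImplicit false

namespace Pool.Agent.LibGrassmann

open ExteriorAlgebra

variable {F : Type*} [Field F] [NeZero (2 : F)]

omit [NeZero (2 : F)] in
lemma map_pow_mem {K : Submodule F (GE F)} {φ : GE F →ₐ[F] GE F} (h : ∀ x ∈ K, φ x ∈ K) (s : ℕ)
    {x : GE F} (hx : x ∈ K ^ s) : φ x ∈ K ^ s := by
  have h1 : K.map φ.toLinearMap ≤ K := by
    rintro _ ⟨y, hy, rfl⟩
    exact h y hy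
  have h2 : (K ^ s).map φ.toLinearMap ≤ K ^ s := by
    rw [Submodule.map_pow]
    exact pow_le_pow_left' h1 s
  exact h2 ⟨x, hx, rfl⟩

omit [NeZero (2 : F)] in
/-- Homomorphisms congruent mod `K^s` are congruent mod `K^(s+1)` on the square of the
augmentation ideal. -/
lemma congr_sq {K : Submodule F (GE F)} {f g : GE F →ₐ[F] GE F}
    {s : ℕ} (hfg : ∀ x, f x - g x ∈ K ^ s) (hf : ∀ x ∈ mI F, f x ∈ K) (hg : ∀ x ∈ mI F, g x ∈ K)
    {x : GE F} (hx : x ∈ mI F * mI F) : f x - g x ∈ K ^ (s + 1) := by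
  induction hx using Submodule.mul_induction_on' with
  | mem_mul_mem a ha b hb =>
    have : f (a * b) - g (a * b) = f a * (f b - g b) + (f a - g a) * g b := by
      rw [map_mul, map_mul]; noncomm_ring
    rw [this]
    refine Submodule.add_mem _ ?_ ?_
    · rw [pow_succ']; exact Submodule.mul_mem_mul (hf a ha) (hfg b)
    · rw [pow_succ]; exact Submodule.mul_mem_mul (hfg a) (hg b hb)
  | add a ha b hb h1 h2 =>
    have : f (a + b) - g (a + b) = (f a - g a) + (f b - g b) := by
      rw [map_add, map_add]; abel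
    rw [this]
    exact Submodule.add_mem _ h1 h2

/-- The equivariant retraction onto the subalgebra generated by `e i`, `i < N`. -/
theorem retraction (N : ℕ) (φ : GE F →ₐ[F] GE F) (hφ : ∀ x, φ (φ x) = x)
    (hodd : ∀ i, IsOdd (φ (e i))) (ε : ℕ → F) (hε : ∀ i, ε i * ε i = 1)
    (hlin : ∀ j, lin (φ (e j)) = ε j • Finsupp.single j 1) (hfix : ∀ i < N, φ (e i) = ε i • e i) :
    ∃ ρ : GE F →ₐ[F] GE F, (∀ i, IsOdd (ρ (e i))) ∧ (∀ i < N, ρ (e i) = e i) ∧
      (∀ x, r N (ρ x) = ρ x) ∧ ∀ x, ρ (φ x) = φ (ρ x) := by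
  set K := idl (gens F N) with hKdef
  have hK : IsTS K := idl_gens_ts N
  obtain ⟨n, hn⟩ := idl_nilp (gens_finite (F := F) N) (gens_odd N)
  have hφK : ∀ x ∈ K, φ x ∈ K := by
    intro x hx
    refine idl_map_le hK φ ?_ hx
    rintro _ ⟨i, hi, rfl⟩
    rw [hfix i hi]
    exact K.smul_mem _ (subset_idl (e_mem_gens hi))
  have h2 : (2 : F) ≠ 0 := NeZero.ne _
  have hφr : ∀ x, r N (φ (r N x)) = φ (r N x) := by
    intro x
    have : ((r N).comp φ).comp (r N) = φ.comp (r N) := by
      apply hom_ext'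
      intro i
      rw [AlgHom.comp_apply, AlgHom.comp_apply, AlgHom.comp_apply, r_e]
      split_ifs with h
      · rw [hfix i h, map_smul, r_e_lt h]
      · rw [map_zero, map_zero]
    exact DFunLike.congr_fun this x
  -- elements of the augmentation ideal are mapped into `K`
  have himg : ∀ f : GE F →ₐ[F] GE F, (∀ i, IsOdd (f (e i))) → (∀ x, r N (f x) = f x) →
      ∀ x ∈ mI F, f x ∈ K := by
    intro f hf1 hf2 x hx
    have := r_sub_aug_mem N (f x)
    rw [aug_map hf1, mem_mI.mp hx, map_zero, sub_zero, hf2] at this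
    exact this
  have claim : ∀ s : ℕ, ∃ ρ : GE F →ₐ[F] GE F, (∀ i, IsOdd (ρ (e i))) ∧ (∀ i < N, ρ (e i) = e i) ∧
      (∀ x, r N (ρ x) = ρ x) ∧ ∀ x, ρ x - φ (ρ (φ x)) ∈ K ^ (s + 1) := by
    intro s
    induction s with
    | zero =>
      refine ⟨r N, ?_, fun i hi => r_e_lt hi, fun x => r_r le_rfl x, ?_⟩
      · intro i
        rw [r_e]
        split_ifs
        · exact isOdd_e i
        · exact isOdd_zero
      · intro x
        have h1 := r_sub_aug_mem N x
        have h3 := r_sub_aug_mem N (φ x)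
        have h4 := hφK _ h3
        rw [map_sub, AlgHom.commutes, aug_map hodd] at h4
        have : r N x - φ (r N (φ x)) = (r N x - algebraMap F _ (aug x)) -
            (φ (r N (φ x)) - algebraMap F _ (aug x)) := by abel
        rw [this, zero_add, pow_one]
        exact K.sub_mem h1 h4
    | succ s ih =>
      obtain ⟨ρ, h1, h3, h4, h5⟩ := ih
      set ρ' : GE F →ₐ[F] GE F := (φ.comp ρ).comp φ with hρ'
      have hρ'x : ∀ x, ρ' x = φ (ρ (φ x)) := fun x => rfl
      have h1' : ∀ i, IsOdd (ρ' (e i)) := fun i => IsOdd.map hodd (IsOdd.map h1 (hodd i))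
      have h3' : ∀ i < N, ρ' (e i) = e i := by
        intro i hi
        rw [hρ'x, hfix i hi, map_smul, map_smul, h3 i hi, hfix i hi, smul_smul, hε, one_smul]
      have h4' : ∀ x, r N (ρ' x) = ρ' x := by
        intro x
        rw [hρ'x, ← h4 (φ x), hφr]
      have hc : ∀ i, IsOdd ((2 : F)⁻¹ • (ρ (e i) + ρ' (e i))) := fun i =>
        ((h1 i).add (h1' i)).smul _
      set ν := subst (fun i => (2 : F)⁻¹ • (ρ (e i) + ρ' (e i))) hc with hν
      have hνe : ∀ i, ν (e i) = (2 : F)⁻¹ • (ρ (e i) + ρ' (e i)) := fun i => subst_e _ hc i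
      have k1 : ∀ i, IsOdd (ν (e i)) := fun i => by rw [hνe]; exact hc i
      have k3 : ∀ i < N, ν (e i) = e i := by
        intro i hi
        rw [hνe, h3 i hi, h3' i hi, ← two_smul F, smul_smul, inv_mul_cancel₀ h2, one_smul]
      have k4 : ∀ x, r N (ν x) = ν x := by
        intro x
        have : (r N).comp ν = ν := by
          apply hom_ext'
          intro i
          rw [AlgHom.comp_apply, hνe, map_smul, map_add, h4, h4']
        exact DFunLike.congr_fun this x
      have hKs : IsTS (K ^ (s + 1)) := hK.pow s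
      have d1 : ∀ x, ν x - ρ x ∈ K ^ (s + 1) := by
        refine congr_mod hKs (fun i => ?_)
        have : ν (e i) - ρ (e i) = (2 : F)⁻¹ • (-(ρ (e i) - ρ' (e i))) := by
          have h6 : (2 : F)⁻¹ • (ρ (e i) + ρ (e i)) = ρ (e i) := by
            rw [← two_smul F, smul_smul, inv_mul_cancel₀ h2, one_smul]
          calc ν (e i) - ρ (e i) =
              (2 : F)⁻¹ • (ρ (e i) + ρ' (e i)) - (2 : F)⁻¹ • (ρ (e i) + ρ (e i)) := by
                rw [hνe, h6]
            _ = _ := by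
                rw [← smul_sub]
                congr 1
                abel
        rw [this]
        exact Submodule.smul_mem _ _ (Submodule.neg_mem _ (h5 _))
      have d2 : ∀ x, ν x - ρ' x ∈ K ^ (s + 1) := by
        intro x
        have : ν x - ρ' x = (ν x - ρ x) + (ρ x - ρ' x) := by abel
        rw [this]
        exact Submodule.add_mem _ (d1 x) (h5 x)
      have e1 : ∀ x ∈ mI F * mI F, ν x - ρ x ∈ K ^ (s + 1 + 1) := fun x hx =>
        congr_sq d1 (himg ν k1 k4) (himg ρ h1 h4) hx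
      have e2 : ∀ x ∈ mI F * mI F, ν x - ρ' x ∈ K ^ (s + 1 + 1) := fun x hx =>
        congr_sq d2 (himg ν k1 k4) (himg ρ' h1' h4') hx
      refine ⟨ν, k1, k3, k4, ?_⟩
      intro x
      have hKs2 : IsTS (K ^ (s + 1 + 1)) := hK.pow (s + 1)
      refine congr_mod hKs2 (f := ν) (g := (φ.comp ν).comp φ) (fun j => ?_) x
      rw [AlgHom.comp_apply, AlgHom.comp_apply]
      -- decompose `φ (e j)`
      set k := φ (e j) - ε j • e j with hk
      have hkm : k ∈ mI F * mI F := by
        apply mem_sq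
        · rw [hk, map_sub, (hodd j).aug, map_smul, aug_e, smul_zero, sub_zero]
        · rw [hk, map_sub, hlin, map_smul, lin_e, sub_self]
      have hφe : φ (e j) = ε j • e j + k := by rw [hk]; abel
      have hsw : φ (ρ (e j)) = ρ' (φ (e j)) := by rw [hρ'x, hφ]
      have hsw' : φ (ρ' (e j)) = ρ (φ (e j)) := by rw [hρ'x, hφ]
      have hφν : φ (ν (e j)) = ε j • ν (e j) + (2 : F)⁻¹ • (ρ k + ρ' k) := by
        rw [hνe, map_smul, map_add, hsw, hsw', hφe, map_add, map_add, map_smul, map_smul,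
          smul_comm (ε j), ← smul_add]
        congr 1
        rw [smul_add]
        abel
      have hνφ : ν (φ (e j)) = ε j • ν (e j) + ν k := by
        rw [hφe, map_add, map_smul]
      have hkey : ν (φ (e j)) - φ (ν (e j)) ∈ K ^ (s + 1 + 1) := by
        have : ν (φ (e j)) - φ (ν (e j)) = (2 : F)⁻¹ • ((ν k - ρ k) + (ν k - ρ' k)) := by
          have h6 : (2 : F)⁻¹ • (ν k + ν k) = ν k := by
            rw [← two_smul F, smul_smul, inv_mul_cancel₀ h2, one_smul]
          calc ν (φ (e j)) - φ (ν (e j)) =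
              (ε j • ν (e j) + (2 : F)⁻¹ • (ν k + ν k)) -
                (ε j • ν (e j) + (2 : F)⁻¹ • (ρ k + ρ' k)) := by rw [hνφ, hφν, h6]
            _ = _ := by
                rw [add_sub_add_left_eq_sub, ← smul_sub]
                congr 1
                abel
        rw [this]
        exact Submodule.smul_mem _ _ (Submodule.add_mem _ (e1 k hkm) (e2 k hkm))
      have h7 := map_pow_mem hφK _ hkey
      rw [map_sub, hφ] at h7
      have : ν (e j) - φ (ν (φ (e j))) = -(φ (ν (φ (e j))) - ν (e j)) := by abel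
      rw [this]
      exact Submodule.neg_mem _ h7
  obtain ⟨ρ, h1, h3, h4, h5⟩ := claim n
  refine ⟨ρ, h1, h3, h4, ?_⟩
  intro x
  have h6 := h5 (φ x)
  rw [hφ, pow_succ, hn, Submodule.bot_mul, Submodule.mem_bot, sub_eq_zero] at h6
  exact h6

/-- The key lemma. -/
theorem key (N n : ℕ) (hnN : n ≤ N) (φ : GE F →ₐ[F] GE F) (hφ : ∀ x, φ (φ x) = x)
    (hodd : ∀ i, IsOdd (φ (e i))) (ε : ℕ → F) (hε : ∀ i, ε i * ε i = 1)
    (hlin : ∀ j, lin (φ (e j)) = ε j • Finsupp.single j 1) (hfix : ∀ i < N, φ (e i) = ε i • e i)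
    (β : GE F ≃ₐ[F] GE F) (hβ : Uni N β) (hβn : ∀ i < n, β (e i) = e i) (x : GE F)
    (hx : r N x = x) (s : F) (hs : s * s = 1) (hκ : φ (β x) = s • β x) :
    ∃ g : GE F ≃ₐ[F] GE F, (∀ i, IsOdd (g (e i))) ∧ (∀ y, φ (g y) = g (φ y)) ∧
      (∀ i < n, g (e i) = e i) ∧ ∃ y, r N y = y ∧ g y = β x := by
  obtain ⟨ρ, ρ1, ρ2, ρ3, ρ4⟩ := retraction N φ hφ hodd ε hε hlin hfix
  -- the internal automorphism
  obtain ⟨β₀, hβ₀, hβ₀e⟩ := exists_uni (N := N) (fun i => if i < N then ρ (β (e i)) else e i)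
    (fun i => by
      split_ifs
      · exact IsOdd.map ρ1 (hβ.1 i)
      · exact isOdd_e i)
    (fun i => by
      split_ifs with hi
      · have hm : β (e i) - e i ∈ mI F * mI F := by
          apply mem_sq
          · rw [map_sub, (hβ.1 i).aug, aug_e, sub_zero]
          · rw [map_sub, hβ.2.1, lin_e, sub_self]
        have hm2 : lin (ρ (β (e i) - e i)) = 0 := by
          generalize β (e i) - e i = z at hm
          induction hm using Submodule.mul_induction_on' with
          | mem_mul_mem a ha b hb =>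
            rw [map_mul, lin_mul, aug_map ρ1, aug_map ρ1, mem_mI.mp ha, mem_mI.mp hb]
            simp
          | add a ha b hb h1 h2 => rw [map_add, map_add, h1, h2, add_zero]
        rw [map_sub, map_sub, ρ2 i hi, lin_e, sub_eq_zero] at hm2
        exact hm2
      · exact lin_e i)
    (fun i hi => by rw [if_neg (by omega)])
  set κ := β x with hκdef
  have hF'' : β₀ x = ρ κ := by
    have := hom_congr_r (f := (β₀ : GE F →ₐ[F] GE F)) (g := ρ.comp (β : GE F →ₐ[F] GE F)) (N := N)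
      (fun i hi => by
        show β₀ (e i) = ρ (β (e i))
        rw [hβ₀e, if_pos hi]) hx
    exact this
  have hβ₀n : ∀ i < n, β₀ (e i) = e i := by
    intro i hi
    rw [hβ₀e, if_pos (by omega), hβn i hi, ρ2 i (by omega)]
  set βt : GE F ≃ₐ[F] GE F := β₀.symm.trans β with hβt
  have hβtU : Uni N βt := hβ₀.symm.trans hβ
  have hβtκ : βt (ρ κ) = κ := by
    rw [hβt, AlgEquiv.trans_apply, ← hF'', AlgEquiv.symm_apply_apply]
  have hβtn : ∀ i < n, βt (e i) = e i := by
    intro i hi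
    rw [hβt, AlgEquiv.trans_apply]
    have : β₀.symm (e i) = e i := by
      rw [AlgEquiv.symm_apply_eq]
      exact (hβ₀n i hi).symm
    rw [this, hβn i hi]
  have hφρ : φ (ρ κ) = s • ρ κ := by
    rw [← ρ4, hκ, map_smul]
  -- the nilpotent ideal
  obtain ⟨M, hNM, hM⟩ := exists_M_aux (fun i => βt (e i)) N
  set S : Set (GE F) := gens F M ∪ φ '' (gens F M) with hS
  have hSodd : ∀ y ∈ S, IsOdd y := by
    rintro y (hy | ⟨z, hz, rfl⟩)
    · exact gens_odd M y hy
    · exact IsOdd.map hodd (gens_odd M z hz)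
  have hSfin : S.Finite := (gens_finite M).union ((gens_finite M).image _)
  set K := idl S with hK
  have hKts : IsTS K := idl_ts hSodd
  have hKn : ∃ n, K ^ n = ⊥ := idl_nilp hSfin hSodd
  have hφK : ∀ y ∈ K, φ y ∈ K := by
    intro y hy
    refine idl_map_le hKts φ ?_ hy
    rintro z (hz | ⟨w, hw, rfl⟩)
    · exact subset_idl (Or.inr ⟨z, hz, rfl⟩)
    · rw [hφ]; exact subset_idl (Or.inl hw)
  have hd : ∀ y, βt y - y ∈ K ^ 2 := by
    intro y
    exact delta_of_gens (f := (βt : GE F →ₐ[F] GE F)) (fun i => hβtU.1 i) (fun i => hβtU.2.1 i)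
      (fun i hi => hβtU.2.2 i hi) hNM hM hKts (fun i hi => subset_idl (Or.inl (e_mem_gens hi))) y
  -- the commutator
  set τ : GE F →ₐ[F] GE F :=
    ((φ.comp (βt : GE F →ₐ[F] GE F)).comp φ).comp (βt.symm : GE F →ₐ[F] GE F) with hτ
  have hτx : ∀ y, τ y = φ (βt (φ (βt.symm y))) := fun y => rfl
  have hτβ : ∀ y, τ (βt y) = φ (βt (φ y)) := fun y => by
    rw [hτx, AlgEquiv.symm_apply_apply]
  have hdτ : ∀ y, τ y - y ∈ K ^ 2 := by
    intro y
    obtain ⟨z, rfl⟩ := βt.surjective y
    rw [hτβ]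
    have h1 : φ (βt (φ z)) - βt z = φ (βt (φ z) - φ z) - (βt z - z) := by
      rw [map_sub, hφ]; abel
    rw [h1]
    exact Submodule.sub_mem _ (map_pow_mem hφK 2 (hd _)) (hd _)
  have hτn : IsNilpotent (τ.toLinearMap - 1) := nilp_of_delta hKts hKn hdτ
  obtain ⟨q, σ, hq, hσn, hσ2, hσfix, hσJ⟩ := exists_sqrt (NeZero.ne (2 : F)) τ hτn
  have hτpar : ∀ y, τ (par y) = par (τ y) := by
    intro y
    rw [hτx, hτx, equiv_par hβtU.symm.1, hom_par hodd, equiv_par hβtU.1, hom_par hodd]
  have hσpar : ∀ y, σ (par y) = par (σ y) := by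
    intro y
    have h1 := aeval_intertwine (par (F := F)).toLinearMap τ.toLinearMap τ.toLinearMap
      (by ext1 z; exact (hτpar z).symm) q
    rw [← hq] at h1
    exact (LinearMap.congr_fun h1 y).symm
  have hJ1 : (φ.toLinearMap : Module.End F (GE F)) * φ.toLinearMap = 1 := by
    ext1 y; exact hφ y
  have hJ2 : (φ.toLinearMap : Module.End F (GE F)) * τ.toLinearMap * φ.toLinearMap *
      τ.toLinearMap = 1 := by
    ext1 y
    show φ (τ (φ (τ y))) = y
    obtain ⟨z, rfl⟩ := βt.surjective y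
    rw [hτβ, hφ, hτβ, hφ, hφ]
  have hJσ : ∀ y, φ (σ (φ (σ y))) = y := fun y => LinearMap.congr_fun (hσJ _ hJ1 hJ2) y
  set σe : GE F ≃ₐ[F] GE F := AlgEquiv.ofBijective σ (bijective_of_nilp hσn) with hσe
  have hσex : ∀ y, σe y = σ y := fun y => rfl
  have hσodd : ∀ i, IsOdd (σe (e i)) := by
    intro i
    rw [IsOdd, hσex, ← hσpar, par_e, map_neg]
  refine ⟨βt.trans σe, ?_, ?_, ?_, ρ κ, ρ3 κ, ?_⟩
  · intro i
    rw [AlgEquiv.trans_apply]
    exact IsOdd.mapE hσodd (hβtU.1 i)
  · intro y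
    show φ (σ (βt y)) = σ (βt (φ y))
    set z := βt (φ y) with hz
    have h1 : βt y = φ (σ (σ z)) := by
      rw [hσ2, hz, hτβ, hφ, hφ]
    rw [h1]
    exact hJσ (σ z)
  · intro i hi
    rw [AlgEquiv.trans_apply, hβtn i hi, hσex]
    apply hσfix
    have : βt.symm (e i) = e i := by
      rw [AlgEquiv.symm_apply_eq]
      exact (hβtn i hi).symm
    rw [hτx, this, hfix i (by omega), map_smul, map_smul, hβtn i hi, hfix i (by omega), smul_smul,
      hε, one_smul]
  · rw [AlgEquiv.trans_apply, hβtκ, hσex]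
    apply hσfix
    have h1 : τ (βt (ρ κ)) = βt (ρ κ) := by
      rw [hτβ, hφρ, map_smul, hβtκ, map_smul, hκ, smul_smul, hs, one_smul]
    rwa [hβtκ] at h1

end Pool.Agent.LibGrassmann
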