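import Pool.Agent.Lib_MP_7c306c_al.Basic
import Mathlib.RingTheory.Nilpotent.Basic

/-! # Nilpotent ideals generated by finitely many odd elements -/

set_option autoImplicit false

namespace Pool.Agent.LibGrassmann

open ExteriorAlgebra

variable {F : Type*} [Field F]

/-- Two-sided ideals, as subspaces. -/
def IsTS (K : Submodule F (GE F)) : Prop := ⊤ * K ≤ K ∧ K * ⊤ ≤ K

lemma IsTS.mul_mem_left {K : Submodule F (GE F)} (hK : IsTS K) (x : GE F) {y : GE F} (hy : y ∈ K) :
    x * y ∈ K := hK.1 (Submodule.mul_mem_mul Submodule.mem_top hy)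

lemma IsTS.mul_mem_right {K : Submodule F (GE F)} (hK : IsTS K) {x : GE F} (hx : x ∈ K) (y : GE F) :
    x * y ∈ K := hK.2 (Submodule.mul_mem_mul hx Submodule.mem_top)

lemma IsTS.mul {K L : Submodule F (GE F)} (hK : IsTS K) (hL : IsTS L) : IsTS (K * L) := by
  constructor
  · rw [← mul_assoc]
    exact mul_le_mul' hK.1 le_rfl
  · rw [mul_assoc]
    exact mul_le_mul' le_rfl hL.2

lemma IsTS.pow {K : Submodule F (GE F)} (hK : IsTS K) (n : ℕ) : IsTS (K ^ (n + 1)) := by
  induction n with
  | zero => simpa using hK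
  | succ n ih =>
    rw [pow_succ]
    exact ih.mul hK

lemma IsTS.pow_le {K : Submodule F (GE F)} (hK : IsTS K) {m n : ℕ} (hm : 1 ≤ m) (h : m ≤ n) :
    K ^ n ≤ K ^ m := by
  obtain ⟨k, rfl⟩ := Nat.exists_eq_add_of_le h
  obtain ⟨m', rfl⟩ := Nat.exists_eq_add_of_le' hm
  rw [pow_add]
  calc K ^ (m' + 1) * K ^ k ≤ K ^ (m' + 1) * ⊤ := mul_le_mul' le_rfl le_top
  _ ≤ K ^ (m' + 1) := (hK.pow m').2

/-- If two homomorphisms agree modulo a two-sided ideal on generators, they agree modulo it. -/
lemma congr_mod {K : Submodule F (GE F)} (hK : IsTS K) {f g : GE F →ₐ[F] GE F}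
    (h : ∀ i, f (e i) - g (e i) ∈ K) (x : GE F) : f x - g x ∈ K := by
  induction x using ind with
  | hs a => simp
  | he i => exact h i
  | hadd x y hx hy =>
    have : f (x + y) - g (x + y) = (f x - g x) + (f y - g y) := by
      rw [map_add, map_add]; abel
    rw [this]
    exact K.add_mem hx hy
  | hmul x y hx hy =>
    have : f (x * y) - g (x * y) = f x * (f y - g y) + (f x - g x) * g y := by
      rw [map_mul, map_mul]; noncomm_ring
    rw [this]
    exact K.add_mem (hK.mul_mem_left _ hy) (hK.mul_mem_right hx _)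

/-- Congruences improve along powers. -/
lemma delta_pow {K : Submodule F (GE F)} (hK : IsTS K) {f : GE F →ₐ[F] GE F}
    (h : ∀ x, f x - x ∈ K ^ 2) (n : ℕ) {x : GE F} (hx : x ∈ K ^ n) : f x - x ∈ K ^ (n + 1) := by
  induction n generalizing x with
  | zero =>
    rw [zero_add]
    exact hK.pow_le le_rfl (by norm_num) (h x)
  | succ n ih =>
    have hfK : ∀ y ∈ K, f y ∈ K := by
      intro y hy
      have : f y = (f y - y) + y := by abel
      rw [this]
      apply K.add_mem _ hy
      simpa using hK.pow_le le_rfl (by norm_num) (h y)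
    rw [pow_succ] at hx
    induction hx using Submodule.mul_induction_on' with
    | mem_mul_mem a ha b hb =>
      have : f (a * b) - a * b = (f a - a) * f b + a * (f b - b) := by
        rw [map_mul]; noncomm_ring
      rw [this]
      apply Submodule.add_mem
      · rw [pow_succ]
        exact Submodule.mul_mem_mul (ih ha) (hfK b hb)
      · have e1 : n + 1 + 1 = n + 2 := rfl
        rw [e1, pow_add]
        exact Submodule.mul_mem_mul ha (h b)
    | add a ha b hb h1 h2 =>
      have : f (a + b) - (a + b) = (f a - a) + (f b - b) := by rw [map_add]; abel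
      rw [this]
      exact Submodule.add_mem _ h1 h2

lemma delta_iter {K : Submodule F (GE F)} (hK : IsTS K) {f : GE F →ₐ[F] GE F}
    (h : ∀ x, f x - x ∈ K ^ 2) (n : ℕ) (x : GE F) :
    ((f.toLinearMap - 1) ^ (n + 1)) x ∈ K ^ (n + 2) := by
  induction n with
  | zero => simpa using h x
  | succ n ih =>
    rw [pow_succ' (f.toLinearMap - 1), Module.End.mul_apply]
    exact delta_pow hK h _ ih

/-- Nilpotency of `f - 1`. -/
lemma nilp_of_delta {K : Submodule F (GE F)} (hK : IsTS K) (hn : ∃ n, K ^ n = ⊥)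
    {f : GE F →ₐ[F] GE F} (h : ∀ x, f x - x ∈ K ^ 2) : IsNilpotent (f.toLinearMap - 1) := by
  obtain ⟨n, hn⟩ := hn
  refine ⟨n + 1, ?_⟩
  ext1 x
  have h1 := delta_iter hK h n x
  have h2 : K ^ (n + 2) = ⊥ := by
    rw [pow_add, hn, Submodule.bot_mul]
  rw [h2] at h1
  simpa using h1

lemma bijective_of_nilp {f : GE F →ₐ[F] GE F} (h : IsNilpotent (f.toLinearMap - 1)) :
    Function.Bijective f := by
  have h1 : IsUnit (f.toLinearMap : Module.End F (GE F)) := by
    have := h.isUnit_add_one
    simpa using this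
  exact (Module.End.isUnit_iff _).mp h1

variable [NeZero (2 : F)]

lemma commute_odd {S S' : Submodule F (GE F)} (hS : ∀ x ∈ S, IsOdd x) (hS' : ∀ x ∈ S', IsOdd x) :
    S * S' = S' * S := by
  apply le_antisymm
  · rw [Submodule.mul_le]
    intro x hx y hy
    rw [(hS x hx).anticomm (hS' y hy)]
    exact Submodule.neg_mem _ (Submodule.mul_mem_mul hy hx)
  · rw [Submodule.mul_le]
    intro x hx y hy
    rw [(hS' x hx).anticomm (hS y hy)]
    exact Submodule.neg_mem _ (Submodule.mul_mem_mul hy hx)

lemma odd_nilpotent (s : Set (GE F)) (hs : s.Finite) (ho : ∀ x ∈ s, IsOdd x) :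
    ∃ n, (Submodule.span F s) ^ n = ⊥ := by
  induction s, hs using Set.Finite.induction_on with
  | empty => exact ⟨1, by simp⟩
  | @insert a s ha hs ih =>
    obtain ⟨n, hn⟩ := ih (fun x hx => ho x (Set.mem_insert_of_mem _ hx))
    have hodd : ∀ x ∈ Submodule.span F s, IsOdd x := fun x hx =>
      (Submodule.span_le (p := oddSub F)).mpr (fun y hy => ho y (Set.mem_insert_of_mem _ hy)) hx
    have hodda : ∀ x ∈ Submodule.span F {a}, IsOdd x := fun x hx =>
      (Submodule.span_le (p := oddSub F)).mpr (fun y hy => by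
        rw [Set.mem_singleton_iff] at hy
        rw [hy]
        exact ho a (Set.mem_insert _ _)) hx
    have ha2 : (Submodule.span F {a}) ^ 2 = ⊥ := by
      rw [pow_two, Submodule.span_mul_span, Set.singleton_mul_singleton,
        (ho a (Set.mem_insert _ _)).sq, Submodule.span_zero_singleton]
    rw [Submodule.span_insert]
    refine ⟨n + 2, ?_⟩
    rw [← Submodule.add_eq_sup, Commute.add_pow (commute_odd hodda hodd)]
    apply Finset.sum_eq_zero
    intro m hm
    rw [Finset.mem_range] at hm
    rcases le_or_gt 2 m with h | h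
    · obtain ⟨k, rfl⟩ := Nat.exists_eq_add_of_le h
      rw [pow_add, ha2, Submodule.bot_mul, Submodule.bot_mul, Submodule.bot_mul]
      rfl
    · have : n + 2 - m = n + (2 - m) := by omega
      rw [this, pow_add, hn, Submodule.bot_mul, Submodule.mul_bot, Submodule.bot_mul]
      rfl

/-- The two-sided ideal generated by odd elements. -/
noncomputable def idl (s : Set (GE F)) : Submodule F (GE F) := ⊤ * Submodule.span F s

lemma top_comm {S : Submodule F (GE F)} (hS : ∀ x ∈ S, IsOdd x) : S * ⊤ = ⊤ * S := by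
  apply le_antisymm
  · rw [Submodule.mul_le]
    intro x hx y _
    have : x * y = par y * x := by rw [(hS x hx).mul_eq (par y), par_par]
    rw [this]
    exact Submodule.mul_mem_mul Submodule.mem_top hx
  · rw [Submodule.mul_le]
    intro y _ x hx
    rw [(hS x hx).mul_eq]
    exact Submodule.mul_mem_mul hx Submodule.mem_top

omit [NeZero (2 : F)] in
lemma span_odd {s : Set (GE F)} (ho : ∀ x ∈ s, IsOdd x) : ∀ x ∈ Submodule.span F s, IsOdd x :=
  fun x hx => (Submodule.span_le (p := oddSub F)).mpr (fun y hy => ho y hy) hx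

omit [NeZero (2 : F)] in
lemma top_mul_top : (⊤ : Submodule F (GE F)) * ⊤ = ⊤ := by
  apply top_le_iff.mp
  intro x _
  have : x = 1 * x := (one_mul x).symm
  rw [this]
  exact Submodule.mul_mem_mul Submodule.mem_top Submodule.mem_top

lemma idl_ts {s : Set (GE F)} (ho : ∀ x ∈ s, IsOdd x) : IsTS (idl s) := by
  constructor
  · rw [idl, ← mul_assoc, top_mul_top]
  · rw [idl, mul_assoc, top_comm (span_odd ho), ← mul_assoc, top_mul_top]

omit [NeZero (2 : F)] in
lemma subset_idl {s : Set (GE F)} {x : GE F} (hx : x ∈ s) : x ∈ idl s := by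
  have : x = 1 * x := (one_mul x).symm
  rw [this]
  exact Submodule.mul_mem_mul Submodule.mem_top (Submodule.subset_span hx)

lemma idl_pow {s : Set (GE F)} (ho : ∀ x ∈ s, IsOdd x) (n : ℕ) :
    idl s ^ (n + 1) ≤ ⊤ * (Submodule.span F s) ^ (n + 1) := by
  induction n with
  | zero => simp [idl]
  | succ n ih =>
    have hc : ∀ m : ℕ, (Submodule.span F s) ^ m * ⊤ = ⊤ * (Submodule.span F s) ^ m := by
      intro m
      induction m with
      | zero => simp
      | succ m ihm =>
        rw [pow_succ, mul_assoc, top_comm (span_odd ho), ← mul_assoc, ihm, mul_assoc]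
    calc idl s ^ (n + 1 + 1) = idl s ^ (n + 1) * idl s := pow_succ _ _
    _ ≤ (⊤ * (Submodule.span F s) ^ (n + 1)) * (⊤ * Submodule.span F s) :=
        mul_le_mul' ih le_rfl
    _ = ⊤ * ((Submodule.span F s) ^ (n + 1) * ⊤) * Submodule.span F s := by
        simp only [mul_assoc]
    _ = (⊤ * ⊤) * ((Submodule.span F s) ^ (n + 1) * Submodule.span F s) := by
        rw [hc]; simp only [mul_assoc]
    _ = ⊤ * (Submodule.span F s) ^ (n + 1 + 1) := by rw [top_mul_top, ← pow_succ]

lemma idl_nilp {s : Set (GE F)} (hs : s.Finite) (ho : ∀ x ∈ s, IsOdd x) :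
    ∃ n, idl s ^ n = ⊥ := by
  obtain ⟨n, hn⟩ := odd_nilpotent s hs ho
  refine ⟨n + 1, ?_⟩
  have := idl_pow ho n
  rw [pow_succ (Submodule.span F s), hn, Submodule.bot_mul, Submodule.mul_bot] at this
  exact le_bot_iff.mp this

omit [NeZero (2 : F)] in
lemma idl_map_le {s : Set (GE F)} {K : Submodule F (GE F)} (hK : IsTS K) (f : GE F →ₐ[F] GE F)
    (h : ∀ x ∈ s, f x ∈ K) {x : GE F} (hx : x ∈ idl s) : f x ∈ K := by
  induction hx using Submodule.mul_induction_on' with
  | mem_mul_mem a ha b hb =>
    rw [map_mul]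
    apply hK.mul_mem_left
    have : Submodule.span F s ≤ K.comap f.toLinearMap :=
      Submodule.span_le.mpr (fun x hx => h x hx)
    exact this hb
  | add a ha b hb h1 h2 => rw [map_add]; exact K.add_mem h1 h2

end Pool.Agent.LibGrassmann
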