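import Pool.Agent.Lib_MP_7c306c_al.Step
import Mathlib.LinearAlgebra.Basis.Prod
import Mathlib.LinearAlgebra.Basis.VectorSpace
import Mathlib.LinearAlgebra.Projection
import Mathlib.LinearAlgebra.Dimension.StrongRankCondition

/-! # Reduction of the general case to a diagonal linear part -/

set_option autoImplicit false

namespace Pool.Agent.LibGrassmann

open ExteriorAlgebra Module

variable {F : Type*} [Field F] [NeZero (2 : F)]

/-- An involution of a space with a countable basis has an eigenbasis indexed by `ℕ`. -/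
theorem eigenbasis (ℓ : (ℕ →₀ F) →ₗ[F] (ℕ →₀ F)) (hℓ : ∀ v, ℓ (ℓ v) = v) :
    ∃ (b : Basis ℕ F (ℕ →₀ F)) (ε : ℕ → F), (∀ i, ε i * ε i = 1) ∧ ∀ i, ℓ (b i) = ε i • b i := by
  have h2 : (2 : F) ≠ 0 := NeZero.ne _
  set P := LinearMap.ker (ℓ - 1) with hP
  set Q := LinearMap.ker (ℓ + 1) with hQ
  have hPm : ∀ v, v ∈ P ↔ ℓ v = v := by
    intro v
    rw [hP, LinearMap.mem_ker, LinearMap.sub_apply, sub_eq_zero]; rfl
  have hQm : ∀ v, v ∈ Q ↔ ℓ v = -v := by
    intro v
    rw [hQ, LinearMap.mem_ker, LinearMap.add_apply, add_eq_zero_iff_eq_neg]; rfl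
  have hc : IsCompl P Q := by
    constructor
    · rw [Submodule.disjoint_def]
      intro v h1 h3
      rw [hPm] at h1
      rw [hQm, h1] at h3
      have h4 : (2 : F) • v = 0 := by
        rw [two_smul]
        nth_rewrite 1 [h3]
        exact neg_add_cancel v
      exact (smul_eq_zero.mp h4).resolve_left h2
    · rw [codisjoint_iff, eq_top_iff]
      intro v _
      rw [Submodule.mem_sup]
      refine ⟨(2 : F)⁻¹ • (v + ℓ v), ?_, (2 : F)⁻¹ • (v - ℓ v), ?_, ?_⟩
      · rw [hPm, map_smul, map_add, hℓ, add_comm]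
      · rw [hQm, map_smul, map_sub, hℓ, ← smul_neg, neg_sub]
      · rw [← smul_add, add_add_sub_cancel, ← two_smul F, smul_smul, inv_mul_cancel₀ h2, one_smul]
  let bP := Basis.ofVectorSpace F P
  let bQ := Basis.ofVectorSpace F Q
  let b0 := (bP.prod bQ).map (Submodule.prodEquivOfIsCompl P Q hc)
  let eqv := b0.indexEquiv (Finsupp.basisSingleOne : Basis ℕ F (ℕ →₀ F))
  refine ⟨b0.reindex eqv, fun i => Sum.elim (fun _ => 1) (fun _ => -1) (eqv.symm i), ?_, ?_⟩
  · intro i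
    show Sum.elim (fun _ => (1 : F)) (fun _ => -1) (eqv.symm i) *
      Sum.elim (fun _ => (1 : F)) (fun _ => -1) (eqv.symm i) = 1
    generalize eqv.symm i = z
    rcases z with j | j <;> simp
  · intro i
    rw [Basis.reindex_apply]
    show ℓ (b0 (eqv.symm i)) = Sum.elim (fun _ => (1 : F)) (fun _ => -1) (eqv.symm i) •
      b0 (eqv.symm i)
    generalize eqv.symm i = z
    rcases z with j | j
    · have h1 : b0 (Sum.inl j) = bP j := by
        simp [b0, Submodule.coe_prodEquivOfIsCompl', Basis.map_apply]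
      rw [h1, Sum.elim_inl, one_smul]
      exact (hPm _).mp (bP j).2
    · have h1 : b0 (Sum.inr j) = bQ j := by
        simp [b0, Submodule.coe_prodEquivOfIsCompl', Basis.map_apply]
      rw [h1, Sum.elim_inr, neg_smul, one_smul]
      exact (hQm _).mp (bQ j).2

omit [NeZero (2 : F)] in
/-- The automorphism attached to a basis. -/
lemma exists_linear_auto (b : Basis ℕ F (ℕ →₀ F)) :
    ∃ g : GE F ≃ₐ[F] GE F, (∀ v, g (ι F v) = ι F (b.repr.symm v)) ∧
      ∀ v, g.symm (ι F v) = ι F (b.repr v) := by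
  refine ⟨AlgEquiv.ofAlgHom (ExteriorAlgebra.map b.repr.symm.toLinearMap)
    (ExteriorAlgebra.map b.repr.toLinearMap) ?_ ?_, ?_, ?_⟩
  · rw [ExteriorAlgebra.map_comp_map, LinearEquiv.comp_coe]
    simp [ExteriorAlgebra.map_id]
  · rw [ExteriorAlgebra.map_comp_map, LinearEquiv.comp_coe]
    simp [ExteriorAlgebra.map_id]
  · intro v
    exact ExteriorAlgebra.map_apply_ι _ _
  · intro v
    exact ExteriorAlgebra.map_apply_ι _ _

omit [NeZero (2 : F)] in
lemma isOdd_ι (v : ℕ →₀ F) : IsOdd (ι F v) := par_ι v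

lemma lin_map_gen {f : GE F →ₐ[F] GE F} (h1 : ∀ i, IsOdd (f (e i))) (x : GE F) :
    lin (f x) = lin (f (ι F (lin x))) := by
  have haug : ∀ v : ℕ →₀ F, aug (f (ι F v)) = 0 := fun v => by rw [aug_map h1, aug_ι]
  induction x using ind with
  | hs a => rw [AlgHom.commutes, lin_algebraMap]; simp
  | he i => rw [lin_e]; rfl
  | hadd x y hx hy => rw [map_add, map_add, map_add, map_add, map_add, map_add, hx, hy]
  | hmul x y hx hy =>
    rw [map_mul, lin_mul, lin_mul, aug_map h1, aug_map h1, map_add, map_add, map_add, map_smul,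
      map_smul, map_smul, map_smul, map_smul, map_smul, hx, hy]

/-- Parity-preserving involutions are linearisable. -/
theorem linearize_par (φ : GE F →ₐ[F] GE F) (hφ : ∀ x, φ (φ x) = x)
    (hodd : ∀ i, IsOdd (φ (e i))) :
    ∃ (G : GE F ≃ₐ[F] GE F) (ε : ℕ → F), (∀ i, ε i * ε i = 1) ∧
      ∀ i, φ (G (e i)) = ε i • G (e i) := by
  set ℓ : (ℕ →₀ F) →ₗ[F] (ℕ →₀ F) := lin ∘ₗ φ.toLinearMap ∘ₗ (ι F) with hℓ
  have hℓx : ∀ v, ℓ v = lin (φ (ι F v)) := fun v => rfl
  obtain ⟨b, ε, hε, hb⟩ := eigenbasis ℓ (fun v => by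
    rw [hℓx, hℓx, ← lin_map_gen hodd, hφ, lin_ι])
  obtain ⟨g, hg, hgs⟩ := exists_linear_auto b
  have hgodd : ∀ i, IsOdd (g (e i)) := fun i => by rw [e, hg]; exact isOdd_ι _
  have hgsodd : ∀ i, IsOdd (g.symm (e i)) := fun i => by rw [e, hgs]; exact isOdd_ι _
  set φ' : GE F →ₐ[F] GE F :=
    ((g.symm : GE F →ₐ[F] GE F).comp φ).comp (g : GE F →ₐ[F] GE F) with hφ'
  have hφ'x : ∀ x, φ' x = g.symm (φ (g x)) := fun x => rfl
  obtain ⟨G, hG⟩ := linearize_diag φ'
    (fun x => by rw [hφ'x, hφ'x, AlgEquiv.apply_symm_apply, hφ, AlgEquiv.symm_apply_apply])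
    (fun i => IsOdd.mapE hgsodd (IsOdd.map hodd (hgodd i))) ε hε (fun j => by
      have h1 : g (e j) = ι F (b j) := by
        rw [e, hg, Basis.repr_symm_single, one_smul]
      have h3 : lin (g.symm (φ (g (e j)))) = lin (g.symm (ι F (lin (φ (g (e j)))))) :=
        lin_map_gen (f := (g.symm : GE F →ₐ[F] GE F)) hgsodd _
      rw [hφ'x, h3, h1, ← hℓx, hb, hgs, lin_ι, map_smul, Basis.repr_self])
  refine ⟨G.trans g, ε, hε, fun i => ?_⟩
  have h5 := congrArg g (hG i)
  rw [hφ'x, AlgEquiv.apply_symm_apply, map_smul] at h5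
  rw [AlgEquiv.trans_apply]
  exact h5

end Pool.Agent.LibGrassmann
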