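import Pool.Agent.Lib_MP_7c306c_al.Key

/-! # Linearisation of parity-preserving involutions with diagonal linear part -/

set_option autoImplicit false

namespace Pool.Agent.LibGrassmann

open ExteriorAlgebra

variable {F : Type*} [Field F] [NeZero (2 : F)]

/-- One step of the construction. -/
theorem main_step (φ : GE F →ₐ[F] GE F) (hφ : ∀ x, φ (φ x) = x)
    (hodd : ∀ i, IsOdd (φ (e i))) (ε : ℕ → F) (hε : ∀ i, ε i * ε i = 1)
    (hlin : ∀ j, lin (φ (e j)) = ε j • Finsupp.single j 1) (n : ℕ)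
    (hfix : ∀ i < n, φ (e i) = ε i • e i) (κ : GE F) (s : F) (hs : s * s = 1)
    (hκ : φ κ = s • κ) :
    ∃ N, n < N ∧ ∃ g : GE F ≃ₐ[F] GE F, (∀ i, IsOdd (g (e i))) ∧ (∀ i < n, g (e i) = e i) ∧
      (∀ i < N, φ (g (e i)) = ε i • g (e i)) ∧
      (∀ j, lin (g.symm (φ (g (e j)))) = ε j • Finsupp.single j 1) ∧
      ∃ y, r N y = y ∧ g y = κ := by
  obtain ⟨N, hN, hr⟩ := exists_r_ge κ (n + 1)
  have h2 : (2 : F) ≠ 0 := NeZero.ne _
  have half : ∀ z : GE F, (2 : F)⁻¹ • (z + z) = z := fun z => by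
    rw [← two_smul F, smul_smul, inv_mul_cancel₀ h2, one_smul]
  obtain ⟨β₁, hβ₁, hβ₁e⟩ := exists_uni (N := N)
    (fun i => if i < N then (2 : F)⁻¹ • (e i + ε i • φ (e i)) else e i)
    (fun i => by
      split_ifs
      · exact ((isOdd_e i).add ((hodd i).smul _)).smul _
      · exact isOdd_e i)
    (fun i => by
      split_ifs
      · rw [map_smul, map_add, map_smul, hlin, lin_e, smul_smul, hε, one_smul, ← two_smul F,
          smul_smul, inv_mul_cancel₀ h2, one_smul]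
      · exact lin_e i)
    (fun i hi => by rw [if_neg (by omega)])
  have hβ₁n : ∀ i < n, β₁ (e i) = e i := by
    intro i hi
    rw [hβ₁e, if_pos (by omega), hfix i hi, smul_smul, hε, one_smul, half]
  have hφβ : ∀ i < N, φ (β₁ (e i)) = ε i • β₁ (e i) := by
    intro i hi
    rw [hβ₁e, if_pos hi, map_smul, map_add, map_smul, hφ, smul_comm (ε i), smul_add, smul_add,
      smul_add, smul_smul (ε i), hε, one_smul, add_comm]
  set φ₁ : GE F →ₐ[F] GE F :=
    ((β₁.symm : GE F →ₐ[F] GE F).comp φ).comp (β₁ : GE F →ₐ[F] GE F) with hφ₁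
  have hφ₁x : ∀ x, φ₁ x = β₁.symm (φ (β₁ x)) := fun x => rfl
  have hinv : ∀ x, φ₁ (φ₁ x) = x := by
    intro x
    rw [hφ₁x, hφ₁x, AlgEquiv.apply_symm_apply, hφ, AlgEquiv.symm_apply_apply]
  have hodd₁ : ∀ i, IsOdd (φ₁ (e i)) := by
    intro i
    rw [hφ₁x]
    exact IsOdd.mapE hβ₁.symm.1 (IsOdd.map hodd (hβ₁.1 i))
  have hlin₁ : ∀ j, lin (φ₁ (e j)) = ε j • Finsupp.single j 1 := by
    intro j
    rw [hφ₁x, hβ₁.symm.lin_eq]
    ext k
    rw [lin_map hodd ε hlin, hβ₁.2.1, Finsupp.smul_apply, smul_eq_mul]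
    by_cases hjk : j = k
    · rw [hjk]
    · rw [Finsupp.single_eq_of_ne (fun h => hjk h.symm)]; simp
  have hfix₁ : ∀ i < N, φ₁ (e i) = ε i • e i := by
    intro i hi
    rw [hφ₁x, hφβ i hi, map_smul, AlgEquiv.symm_apply_apply]
  obtain ⟨g₂, q1, q2, q3, y, q4, q5⟩ := key N n (by omega) φ₁ hinv hodd₁ ε hε hlin₁ hfix₁
    β₁.symm hβ₁.symm (fun i hi => by
      rw [AlgEquiv.symm_apply_eq]
      exact (hβ₁n i hi).symm) κ hr s hs (by
      rw [hφ₁x, AlgEquiv.apply_symm_apply, hκ, map_smul])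
  refine ⟨N, by omega, g₂.trans β₁, ?_, ?_, ?_, ?_, y, q4, ?_⟩
  · intro i
    rw [AlgEquiv.trans_apply]
    exact IsOdd.mapE hβ₁.1 (q1 i)
  · intro i hi
    rw [AlgEquiv.trans_apply, q3 i hi, hβ₁n i hi]
  · intro i hi
    have h1 : φ (β₁ (g₂ (e i))) = β₁ (φ₁ (g₂ (e i))) := by
      rw [hφ₁x, AlgEquiv.apply_symm_apply]
    rw [AlgEquiv.trans_apply, h1, q2, hfix₁ i hi, map_smul, map_smul]
  · intro j
    have h1 : (g₂.trans β₁).symm (φ ((g₂.trans β₁) (e j))) = φ₁ (e j) := by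
      rw [AlgEquiv.symm_apply_eq, AlgEquiv.trans_apply, AlgEquiv.trans_apply, ← q2, hφ₁x,
        AlgEquiv.apply_symm_apply]
    rw [h1, hlin₁]
  · rw [AlgEquiv.trans_apply, q5, AlgEquiv.apply_symm_apply]

/-- The invariant of the iteration. -/
def Good (φ : GE F →ₐ[F] GE F) (ε : ℕ → F) (p : (GE F ≃ₐ[F] GE F) × ℕ) : Prop :=
  (∀ i, IsOdd (p.1 (e i))) ∧ (∀ i < p.2, φ (p.1 (e i)) = ε i • p.1 (e i)) ∧
    (∀ j, lin (p.1.symm (φ (p.1 (e j)))) = ε j • Finsupp.single j 1)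

/-- The relation between successive stages. -/
def Nxt (p q : (GE F ≃ₐ[F] GE F) × ℕ) (x : GE F) : Prop :=
  p.2 < q.2 ∧ (∀ i < p.2, q.1 (e i) = p.1 (e i)) ∧ ∃ y, r q.2 y = y ∧ q.1 y = x

theorem step_eig (φ : GE F →ₐ[F] GE F) (hφ : ∀ x, φ (φ x) = x)
    (hodd : ∀ i, IsOdd (φ (e i))) (ε : ℕ → F) (hε : ∀ i, ε i * ε i = 1)
    (p : (GE F ≃ₐ[F] GE F) × ℕ) (hp : Good φ ε p) (x : GE F) (s : F) (hs : s * s = 1)
    (hx : φ x = s • x) : ∃ q, Good φ ε q ∧ Nxt p q x := by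
  obtain ⟨g, n⟩ := p
  obtain ⟨h1, h3, h4⟩ := hp
  set φ' : GE F →ₐ[F] GE F :=
    ((g.symm : GE F →ₐ[F] GE F).comp φ).comp (g : GE F →ₐ[F] GE F) with hφ'
  have hφ'x : ∀ x, φ' x = g.symm (φ (g x)) := fun x => rfl
  have hgs : ∀ i, IsOdd (g.symm (e i)) := by
    intro i
    rw [IsOdd]
    apply g.injective
    rw [equiv_par h1, map_neg, AlgEquiv.apply_symm_apply, par_e]
  obtain ⟨N, hN, k, k1, k2, k3, k4, y, k5, k6⟩ := main_step φ'
    (fun x => by rw [hφ'x, hφ'x, AlgEquiv.apply_symm_apply, hφ, AlgEquiv.symm_apply_apply])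
    (fun i => IsOdd.mapE hgs (IsOdd.map hodd (h1 i))) ε hε (fun j => h4 j) n
    (fun i hi => by rw [hφ'x, h3 i hi, map_smul, AlgEquiv.symm_apply_apply]) (g.symm x) s hs
    (by rw [hφ'x, AlgEquiv.apply_symm_apply, hx, map_smul])
  refine ⟨(k.trans g, N), ⟨?_, ?_, ?_⟩, hN, ?_, y, k5, ?_⟩
  · intro i
    show IsOdd ((k.trans g) (e i))
    rw [AlgEquiv.trans_apply]
    exact IsOdd.mapE h1 (k1 i)
  · intro i hi
    show φ ((k.trans g) (e i)) = ε i • (k.trans g) (e i)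
    have h5 := congrArg g (k3 i hi)
    rw [hφ'x, AlgEquiv.apply_symm_apply, map_smul] at h5
    rw [AlgEquiv.trans_apply]
    exact h5
  · intro j
    show lin ((k.trans g).symm (φ ((k.trans g) (e j)))) = ε j • Finsupp.single j 1
    exact k4 j
  · intro i hi
    show (k.trans g) (e i) = g (e i)
    rw [AlgEquiv.trans_apply, k2 i hi]
  · show (k.trans g) y = x
    rw [AlgEquiv.trans_apply, k6, AlgEquiv.apply_symm_apply]

theorem step (φ : GE F →ₐ[F] GE F) (hφ : ∀ x, φ (φ x) = x)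
    (hodd : ∀ i, IsOdd (φ (e i))) (ε : ℕ → F) (hε : ∀ i, ε i * ε i = 1)
    (p : (GE F ≃ₐ[F] GE F) × ℕ) (hp : Good φ ε p) (x : GE F) :
    ∃ q, Good φ ε q ∧ Nxt p q x := by
  have h2 : (2 : F) ≠ 0 := NeZero.ne _
  obtain ⟨q₁, g1, n1, a1, y1, r1, e1⟩ := step_eig φ hφ hodd ε hε p hp
    ((2 : F)⁻¹ • (x + φ x)) 1 (by ring) (by rw [map_smul, map_add, hφ, one_smul, add_comm])
  obtain ⟨q₂, g2, n2, a2, y2, r2, e2⟩ := step_eig φ hφ hodd ε hε q₁ g1
    ((2 : F)⁻¹ • (x - φ x)) (-1) (by ring) (by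
      rw [map_smul, map_sub, hφ, neg_smul, one_smul, ← smul_neg, neg_sub])
  refine ⟨q₂, g2, by omega, fun i hi => by rw [a2 i (by omega), a1 i hi], y1 + y2, ?_, ?_⟩
  · rw [map_add, r2, r_mono n2.le r1]
  · have h3 : q₂.1 y1 = q₁.1 y1 :=
      hom_congr_r (f := (q₂.1 : GE F →ₐ[F] GE F)) (g := (q₁.1 : GE F →ₐ[F] GE F))
        (fun i hi => a2 i hi) r1
    rw [map_add, h3, e1, e2, ← smul_add, add_add_sub_cancel, ← two_smul F, smul_smul,
      inv_mul_cancel₀ h2, one_smul]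

/-- Linearisation, for a diagonal linear part. -/
theorem linearize_diag (φ : GE F →ₐ[F] GE F) (hφ : ∀ x, φ (φ x) = x)
    (hodd : ∀ i, IsOdd (φ (e i))) (ε : ℕ → F) (hε : ∀ i, ε i * ε i = 1)
    (hlin : ∀ j, lin (φ (e j)) = ε j • Finsupp.single j 1) :
    ∃ G : GE F ≃ₐ[F] GE F, ∀ i, φ (G (e i)) = ε i • G (e i) := by
  classical
  let S := {p : (GE F ≃ₐ[F] GE F) × ℕ // Good φ ε p}
  have h0 : Good φ ε ((AlgEquiv.refl : GE F ≃ₐ[F] GE F), 0) := by
    refine ⟨fun i => isOdd_e i, fun i hi => by simp at hi, fun j => hlin j⟩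
  let nx : S → GE F → S := fun p x =>
    ⟨(step φ hφ hodd ε hε p.1 p.2 x).choose, (step φ hφ hodd ε hε p.1 p.2 x).choose_spec.1⟩
  have hnx : ∀ p x, Nxt p.1 (nx p x).1 x := fun p x =>
    (step φ hφ hodd ε hε p.1 p.2 x).choose_spec.2
  let st : ℕ → S := fun k => Nat.rec ⟨_, h0⟩ (fun j p => nx p (e j)) k
  have hst : ∀ k, st (k + 1) = nx (st k) (e k) := fun k => rfl
  have hnext : ∀ k, Nxt (st k).1 (st (k + 1)).1 (e k) := fun k => by rw [hst]; exact hnx _ _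
  have hN : ∀ k, k ≤ (st k).1.2 := by
    intro k
    induction k with
    | zero => exact Nat.zero_le _
    | succ k ih =>
      have := (hnext k).1
      omega
  have hmono : ∀ j k, j ≤ k → (st j).1.2 ≤ (st k).1.2 := by
    intro j k hjk
    induction k, hjk using Nat.le_induction with
    | base => exact le_rfl
    | succ k hk ih => exact ih.trans (hnext k).1.le
  have hstab : ∀ j k, j ≤ k → ∀ i < (st j).1.2, (st k).1.1 (e i) = (st j).1.1 (e i) := by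
    intro j k hjk
    induction k, hjk using Nat.le_induction with
    | base => intro i _; rfl
    | succ k hk ih =>
      intro i hi
      rw [(hnext k).2.1 i (lt_of_lt_of_le hi (hmono j k hk)), ih i hi]
  set w : ℕ → GE F := fun i => (st (i + 1)).1.1 (e i) with hw
  have hwodd : ∀ i, IsOdd (w i) := fun i => (st (i + 1)).2.1 i
  set G₀ := subst w hwodd with hG₀
  have hG₀e : ∀ i, G₀ (e i) = w i := fun i => subst_e _ _ i
  have hagree : ∀ k, ∀ y, r (st k).1.2 y = y → G₀ y = (st k).1.1 y := by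
    intro k y hy
    refine hom_congr_r (f := G₀) (g := ((st k).1.1 : GE F →ₐ[F] GE F)) (N := (st k).1.2) ?_ hy
    intro i hi
    rw [hG₀e]
    show (st (i + 1)).1.1 (e i) = (st k).1.1 (e i)
    rcases le_total (i + 1) k with h | h
    · rw [hstab (i + 1) k h i (lt_of_lt_of_le (Nat.lt_succ_self i) (hN (i + 1)))]
    · rw [hstab k (i + 1) h i hi]
  have hsurj : Function.Surjective G₀ := by
    intro x
    induction x using ind with
    | hs a => exact ⟨algebraMap F _ a, by simp⟩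
    | he j =>
      obtain ⟨y, hy1, hy2⟩ := (hnext j).2.2
      exact ⟨y, by rw [hagree (j + 1) y hy1, hy2]⟩
    | hadd x y hx hy =>
      obtain ⟨a, rfl⟩ := hx
      obtain ⟨b, rfl⟩ := hy
      exact ⟨a + b, map_add _ _ _⟩
    | hmul x y hx hy =>
      obtain ⟨a, rfl⟩ := hx
      obtain ⟨b, rfl⟩ := hy
      exact ⟨a * b, map_mul _ _ _⟩
  have hinj : Function.Injective G₀ := by
    rw [injective_iff_map_eq_zero]
    intro x hx
    obtain ⟨M, hM⟩ := exists_r x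
    have h1 : r (st M).1.2 x = x := r_mono (hN M) hM
    rw [hagree M x h1] at hx
    exact (map_eq_zero_iff _ (st M).1.1.injective).mp hx
  have hbij : Function.Bijective G₀ := ⟨hinj, hsurj⟩
  refine ⟨AlgEquiv.ofBijective G₀ hbij, fun i => ?_⟩
  show φ (G₀ (e i)) = ε i • G₀ (e i)
  rw [hG₀e]
  exact (st (i + 1)).2.2.1 i (lt_of_lt_of_le (Nat.lt_succ_self i) (hN (i + 1)))

end Pool.Agent.LibGrassmann
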